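import Mathlib

/-!
Integral isometries of the rank three lattice `U + <2d>` (vectors `(r, l, s)`,
form `2 d l l' - r s' - r' s`).
-/

namespace Pool.Agent.K3Aut

/-- the lattice `Z^3`, vectors `(r, l, s)` -/
abbrev V := ℤ × ℤ × ℤ

/-- the Mukai pairing -/
def pr (d : ℤ) (v w : V) : ℤ := 2 * d * v.2.1 * w.2.1 - v.1 * w.2.2 - w.1 * v.2.2

/-- half the norm -/
def qd (d : ℤ) (v : V) : ℤ := d * v.2.1 ^ 2 - v.1 * v.2.2

/-- reflection function -/
def rf (d : ℤ) (δ v : V) : V := v + pr d v δ • δ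

/-- transvection function -/
def tv (d : ℤ) (z w v : V) : V :=
  v + pr d z v • w - pr d w v • z - (qd d w * pr d z v) • z

/-- matrices of `Γ₀(d)` -/
def F1 (d a b c e : ℤ) (v : V) : V :=
  (d * c ^ 2 * v.2.2 + 2 * d * c * e * v.2.1 + e ^ 2 * v.1,
   a * c * v.2.2 + (a * e + d * b * c) * v.2.1 + b * e * v.1,
   a ^ 2 * v.2.2 + 2 * d * a * b * v.2.1 + d * b ^ 2 * v.1)

/-- matrices of the Fricke coset -/
def F2 (d a b c e : ℤ) (v : V) : V :=
  (-(c ^ 2 * v.2.2 + 2 * d * c * e * v.2.1 + d * e ^ 2 * v.1),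
   -(a * c * v.2.2 + (d * a * e + b * c) * v.2.1 + b * e * v.1),
   -(d * a ^ 2 * v.2.2 + 2 * d * a * b * v.2.1 + b ^ 2 * v.1))

/-- `f` comes from a matrix -/
def Mat (d : ℤ) (f : (V ≃ₗ[ℤ] V)) : Prop :=
  (∃ a b c e : ℤ, a * e - d * b * c = 1 ∧ ∀ v, f v = F1 d a b c e v) ∨
  (∃ a b c e : ℤ, d * a * e - b * c = 1 ∧ ∀ v, f v = F2 d a b c e v)

/-- the set of generators -/
def gens (d : ℤ) : Set (V ≃ₗ[ℤ] V) :=
  {f | (∃ δ, pr d δ δ = -2 ∧ ∀ v, f v = rf d δ v) ∨
       (∃ z w, pr d z z = 0 ∧ pr d z w = 0 ∧ ∀ v, f v = tv d z w v)}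

theorem F1_F1 (d a b c e a' b' c' e' : ℤ) (v : V) :
    F1 d a b c e (F1 d a' b' c' e' v) =
      F1 d (a * a' + d * b * c') (a * b' + b * e') (c * a' + e * c') (d * c * b' + e * e') v := by
  simp only [F1, Prod.mk.injEq]
  refine ⟨by ring, by ring, by ring⟩

theorem F1_F2 (d a b c e a' b' c' e' : ℤ) (v : V) :
    F1 d a b c e (F2 d a' b' c' e' v) =
      F2 d (a * a' + b * c') (a * b' + d * b * e') (d * c * a' + e * c') (c * b' + e * e') v := by
  simp only [F1, F2, Prod.mk.injEq]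
  refine ⟨by ring, by ring, by ring⟩

theorem F2_F1 (d a b c e a' b' c' e' : ℤ) (v : V) :
    F2 d a b c e (F1 d a' b' c' e' v) =
      F2 d (a * a' + b * c') (d * a * b' + b * e') (c * a' + d * e * c') (c * b' + e * e') v := by
  simp only [F1, F2, Prod.mk.injEq]
  refine ⟨by ring, by ring, by ring⟩

theorem F2_F2 (d a b c e a' b' c' e' : ℤ) (v : V) :
    F2 d a b c e (F2 d a' b' c' e' v) =
      F1 d (d * a * a' + b * c') (a * b' + b * e') (c * a' + e * c') (c * b' + d * e * e') v := by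
  simp only [F1, F2, Prod.mk.injEq]
  refine ⟨by ring, by ring, by ring⟩

theorem F1_one (d : ℤ) (v : V) : F1 d 1 0 0 1 v = v := by
  simp [F1]

theorem Mat.one (d : ℤ) : Mat d 1 := by
  left
  exact ⟨1, 0, 0, 1, by ring, fun v => by simp [F1_one]⟩

theorem Mat.mul {d : ℤ} {f g : (V ≃ₗ[ℤ] V)} (hf : Mat d f) (hg : Mat d g) : Mat d (f * g) := by
  rcases hf with ⟨a, b, c, e, h1, hf⟩ | ⟨a, b, c, e, h1, hf⟩ <;>
  rcases hg with ⟨a', b', c', e', h2, hg⟩ | ⟨a', b', c', e', h2, hg⟩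
  · left
    refine ⟨_, _, _, _, ?_, fun v => by rw [LinearEquiv.mul_apply, hg, hf, F1_F1]⟩
    linear_combination h1 * (a' * e' - d * b' * c') + h2
  · right
    refine ⟨_, _, _, _, ?_, fun v => by rw [LinearEquiv.mul_apply, hg, hf, F1_F2]⟩
    linear_combination h1 * (d * a' * e' - b' * c') + h2
  · right
    refine ⟨_, _, _, _, ?_, fun v => by rw [LinearEquiv.mul_apply, hg, hf, F2_F1]⟩
    linear_combination h1 * (a' * e' - d * b' * c') + h2
  · left
    refine ⟨_, _, _, _, ?_, fun v => by rw [LinearEquiv.mul_apply, hg, hf, F2_F2]⟩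
    linear_combination h1 * (d * a' * e' - b' * c') + h2

theorem Mat.inv {d : ℤ} {f : (V ≃ₗ[ℤ] V)} (hf : Mat d f) : Mat d f⁻¹ := by
  rcases hf with ⟨a, b, c, e, h1, hf⟩ | ⟨a, b, c, e, h1, hf⟩
  · left
    refine ⟨e, -b, -c, a, by linear_combination h1, fun v => ?_⟩
    apply f.injective
    have hfi : f (f⁻¹ v) = v := f.apply_symm_apply v
    rw [hfi, hf, F1_F1]
    have e1 : a * e + d * b * -c = 1 := by linear_combination h1
    have e2 : a * -b + b * a = 0 := by ring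
    have e3 : c * e + e * -c = 0 := by ring
    have e4 : d * c * -b + e * a = 1 := by linear_combination h1
    rw [e1, e2, e3, e4, F1_one]
  · right
    refine ⟨e, -b, -c, a, by linear_combination h1, fun v => ?_⟩
    apply f.injective
    have hfi : f (f⁻¹ v) = v := f.apply_symm_apply v
    rw [hfi, hf, F2_F2]
    have e1 : d * a * e + b * -c = 1 := by linear_combination h1
    have e2 : a * -b + b * a = 0 := by ring
    have e3 : c * e + e * -c = 0 := by ring
    have e4 : c * -b + d * e * a = 1 := by linear_combination h1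
    rw [e1, e2, e3, e4, F1_one]

theorem Mat.isom {d : ℤ} {f : (V ≃ₗ[ℤ] V)} (hf : Mat d f) (v w : V) :
    pr d (f v) (f w) = pr d v w := by
  rcases hf with ⟨a, b, c, e, h1, hf⟩ | ⟨a, b, c, e, h1, hf⟩
  · rw [hf, hf]
    simp only [pr, F1]
    linear_combination (2 * d * v.2.1 * w.2.1 - v.1 * w.2.2 - w.1 * v.2.2) * (a * e - d * b * c + 1) * h1
  · rw [hf, hf]
    simp only [pr, F2]
    linear_combination (2 * d * v.2.1 * w.2.1 - v.1 * w.2.2 - w.1 * v.2.2) * (d * a * e - b * c + 1) * h1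

end Pool.Agent.K3Aut
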