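import Pool.Agent.K3Aut.Final

namespace Pool.Agent.K3Aut

/-- certificate for `d = 1` -/
def L1 : List Piece := [
  ⟨0, 1, 1, 2, (1, 0, 0), [.R (1, 0, 1)], (0, 0, 0), (0, 0, 0), (0, 0, 0), (0, 0, 0)⟩,
  ⟨1, 2, 1, 1, (1, 1, 1), [.E (0, 0, 1) (0, 1, 0), .R (1, 0, 1)], (0, 0, 0), (0, 0, 0), (0, 0,
    0), (0, 0, 0)⟩]

theorem ok1 : chainOk 1 0 1 L1 = true := by decide +kernel

/-- certificate for `d = 2` -/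
def L2 : List Piece := [
  ⟨0, 1, 1, 2, (1, 0, 0), [.R (1, 0, 1)], (0, 0, 0), (0, 0, 0), (0, 0, 0), (0, 0, 0)⟩,
  ⟨1, 2, 1, 1, (1, 1, 2), [.E (0, 0, 1) (0, 1, 0), .R (1, 0, 1)], (0, 0, 0), (0, 0, 0), (0, 0,
    0), (0, 0, 0)⟩]

theorem ok2 : chainOk 2 0 1 L2 = true := by decide +kernel

/-- certificate for `d = 3` -/
def L3 : List Piece := [
  ⟨0, 1, 1, 2, (1, 0, 0), [.R (1, 0, 1)], (0, 0, 0), (0, 0, 0), (0, 0, 0), (0, 0, 0)⟩,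
  ⟨1, 2, 1, 1, (1, 1, 3), [.E (0, 0, 1) (0, 1, 0), .R (1, 0, 1)], (0, 0, 0), (0, 0, 0), (0, 0,
    0), (0, 0, 0)⟩]

theorem ok3 : chainOk 3 0 1 L3 = true := by decide +kernel

/-- certificate for `d = 4` -/
def L4 : List Piece := [
  ⟨0, 1, 1, 2, (1, 0, 0), [.R (1, 0, 1)], (0, 0, 0), (0, 0, 0), (2, 1, 2), (0, 1, 0)⟩,
  ⟨1, 2, 1, 1, (1, 1, 4), [.E (0, 0, 1) (0, 1, 0), .R (1, 0, 1)], (2, 1, 2), (0, 1, 0), (0, 0,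
    0), (0, 0, 0)⟩]

theorem ok4 : chainOk 4 0 1 L4 = true := by decide +kernel

/-- certificate for `d = 5` -/
def L5 : List Piece := [
  ⟨0, 1, 3, 7, (1, 0, 0), [.R (1, 0, 1)], (0, 0, 0), (0, 0, 0), (0, 0, 0), (0, 0, 0)⟩,
  ⟨3, 7, 2, 3, (5, 3, 9), [.R (2, 1, 3), .R (1, 0, 1)], (0, 0, 0), (0, 0, 0), (0, 0, 0), (0, 0,
    0)⟩,
  ⟨2, 3, 1, 1, (1, 1, 5), [.E (0, 0, 1) (0, 1, 0), .R (1, 0, 1)], (0, 0, 0), (0, 0, 0), (0, 0,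
    0), (0, 0, 0)⟩]

theorem ok5 : chainOk 5 0 1 L5 = true := by decide +kernel

/-- certificate for `d = 6` -/
def L6 : List Piece := [
  ⟨0, 1, 2, 5, (1, 0, 0), [.R (1, 0, 1)], (0, 0, 0), (0, 0, 0), (0, 0, 0), (0, 0, 0)⟩,
  ⟨2, 5, 1, 2, (24, 10, 25), [.E (2, 1, 3) (4, 1, 0)], (0, 0, 0), (0, 0, 0), (2, 1, 3), (0, 1,
    0)⟩,
  ⟨1, 2, 3, 5, (24, 14, 49), [.E (2, 1, 3) (-4, -1, 0)], (2, 1, 3), (0, 1, 0), (0, 0, 0), (0, 0,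
    0)⟩,
  ⟨3, 5, 1, 1, (1, 1, 6), [.E (0, 0, 1) (0, 1, 0), .R (1, 0, 1)], (0, 0, 0), (0, 0, 0), (0, 0,
    0), (0, 0, 0)⟩]

theorem ok6 : chainOk 6 0 1 L6 = true := by decide +kernel

/-- certificate for `d = 7` -/
def L7 : List Piece := [
  ⟨0, 1, 1, 3, (1, 0, 0), [.R (1, 0, 1)], (0, 0, 0), (0, 0, 0), (0, 0, 0), (0, 0, 0)⟩,
  ⟨1, 3, 2, 3, (4, 2, 7), [.R (2, 1, 4)], (0, 0, 0), (0, 0, 0), (0, 0, 0), (0, 0, 0)⟩,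
  ⟨2, 3, 1, 1, (1, 1, 7), [.E (0, 0, 1) (0, 1, 0), .R (1, 0, 1)], (0, 0, 0), (0, 0, 0), (0, 0,
    0), (0, 0, 0)⟩]

theorem ok7 : chainOk 7 0 1 L7 = true := by decide +kernel

/-- certificate for `d = 8` -/
def L8 : List Piece := [
  ⟨0, 1, 1, 3, (1, 0, 0), [.R (1, 0, 1)], (0, 0, 0), (0, 0, 0), (0, 0, 0), (0, 0, 0)⟩,
  ⟨1, 3, 1, 2, (8, 3, 9), [.E (2, 1, 4) (1, 0, -2)], (0, 0, 0), (0, 0, 0), (2, 1, 4), (0, 1, 0)⟩,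
  ⟨1, 2, 2, 3, (8, 5, 25), [.E (2, 1, 4) (-1, 0, 2)], (2, 1, 4), (0, 1, 0), (0, 0, 0), (0, 0, 0)⟩,
  ⟨2, 3, 1, 1, (1, 1, 8), [.E (0, 0, 1) (0, 1, 0), .R (1, 0, 1)], (0, 0, 0), (0, 0, 0), (0, 0,
    0), (0, 0, 0)⟩]

theorem ok8 : chainOk 8 0 1 L8 = true := by decide +kernel

/-- certificate for `d = 9` -/
def L9 : List Piece := [
  ⟨0, 1, 1, 3, (1, 0, 0), [.R (1, 0, 1)], (0, 0, 0), (0, 0, 0), (3, 1, 3), (0, 1, 0)⟩,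
  ⟨1, 3, 2, 3, (4, 2, 9), [.R (2, 1, 5)], (3, 1, 3), (0, 1, 0), (3, 2, 12), (1, -1, 0)⟩,
  ⟨2, 3, 1, 1, (1, 1, 9), [.E (0, 0, 1) (0, 1, 0), .R (1, 0, 1)], (3, 2, 12), (1, -1, 0), (0, 0,
    0), (0, 0, 0)⟩]

theorem ok9 : chainOk 9 0 1 L9 = true := by decide +kernel

/-- certificate for `d = 10` -/
def L10 : List Piece := [
  ⟨0, 1, 1, 4, (1, 0, 0), [.R (1, 0, 1)], (0, 0, 0), (0, 0, 0), (0, 0, 0), (0, 0, 0)⟩,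
  ⟨1, 4, 3, 7, (9, 3, 10), [.R (7, 3, 13), .E (2, 1, 5) (4, 1, 0)], (0, 0, 0), (0, 0, 0), (0, 0,
    0), (0, 0, 0)⟩,
  ⟨3, 7, 1, 2, (40, 18, 81), [.E (2, 1, 5) (4, 1, 0)], (0, 0, 0), (0, 0, 0), (2, 1, 5), (0, 1,
    0)⟩,
  ⟨1, 2, 3, 5, (40, 22, 121), [.E (2, 1, 5) (-4, -1, 0)], (2, 1, 5), (0, 1, 0), (5, 3, 18), (-1,
    2, 0)⟩,
  ⟨3, 5, 3, 4, (10, 7, 49), [.R (1, 1, 11), .E (0, 0, 1) (0, 1, 0), .R (7, 3, 13), .E (2, 1,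
    5) (4, 1, 0)], (5, 3, 18), (-1, 2, 0), (0, 0, 0), (0, 0, 0)⟩,
  ⟨3, 4, 1, 1, (1, 1, 10), [.E (0, 0, 1) (0, 1, 0), .R (1, 0, 1)], (0, 0, 0), (0, 0, 0), (0, 0,
    0), (0, 0, 0)⟩]

theorem ok10 : chainOk 10 0 1 L10 = true := by decide +kernel

/-- certificate for `d = 11` -/
def L11 : List Piece := [
  ⟨0, 1, 2, 7, (1, 0, 0), [.R (1, 0, 1)], (0, 0, 0), (0, 0, 0), (0, 0, 0), (0, 0, 0)⟩,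
  ⟨2, 7, 2, 5, (11, 4, 16), [.R (3, 1, 4), .R (1, 0, 1)], (0, 0, 0), (0, 0, 0), (0, 0, 0), (0,
    0, 0)⟩,
  ⟨2, 5, 9, 14, (4, 2, 11), [.R (2, 1, 6)], (0, 0, 0), (0, 0, 0), (0, 0, 0), (0, 0, 0)⟩,
  ⟨9, 14, 3, 4, (11, 8, 64), [.R (4, 3, 25), .E (0, 0, 1) (0, 1, 0), .R (1, 0, 1)], (0, 0, 0),
    (0, 0, 0), (0, 0, 0), (0, 0, 0)⟩,
  ⟨3, 4, 1, 1, (1, 1, 11), [.E (0, 0, 1) (0, 1, 0), .R (1, 0, 1)], (0, 0, 0), (0, 0, 0), (0, 0,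
    0), (0, 0, 0)⟩]

theorem ok11 : chainOk 11 0 1 L11 = true := by decide +kernel

/-- certificate for `d = 12` -/
def L12 : List Piece := [
  ⟨0, 1, 2, 7, (1, 0, 0), [.R (1, 0, 1)], (0, 0, 0), (0, 0, 0), (0, 0, 0), (0, 0, 0)⟩,
  ⟨2, 7, 1, 3, (48, 14, 49), [.R (7, 2, 7), .R (1, 0, 1)], (0, 0, 0), (0, 0, 0), (3, 1, 4), (0,
    1, 0)⟩,
  ⟨1, 3, 1, 2, (12, 5, 25), [.E (2, 1, 6) (1, 0, -3)], (3, 1, 4), (0, 1, 0), (2, 1, 6), (0, 1,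
    0)⟩,
  ⟨1, 2, 2, 3, (12, 7, 49), [.E (2, 1, 6) (-1, 0, 3)], (2, 1, 6), (0, 1, 0), (3, 2, 16), (1, -1,
    0)⟩,
  ⟨2, 3, 5, 7, (48, 34, 289), [.R (7, 5, 43), .E (0, 0, 1) (0, 1, 0), .R (1, 0, 1)], (3, 2, 16),
    (1, -1, 0), (0, 0, 0), (0, 0, 0)⟩,
  ⟨5, 7, 1, 1, (1, 1, 12), [.E (0, 0, 1) (0, 1, 0), .R (1, 0, 1)], (0, 0, 0), (0, 0, 0), (0, 0,
    0), (0, 0, 0)⟩]

theorem ok12 : chainOk 12 0 1 L12 = true := by decide +kernel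

/-- certificate for `d = 13` -/
def L13 : List Piece := [
  ⟨0, 1, 1, 4, (1, 0, 0), [.R (1, 0, 1)], (0, 0, 0), (0, 0, 0), (0, 0, 0), (0, 0, 0)⟩,
  ⟨1, 4, 2, 5, (9, 3, 13), [.R (11, 4, 19), .R (2, 1, 7), .R (1, 1, 14), .E (0, 0, 1) (0, 1, 0),
    .R (29, 7, 22), .R (22, 7, 29), .E (9, 3, 13) (6, 1, 0), .R (11, 4, 19), .R (2, 1, 7)], (0,
    0, 0), (0, 0, 0), (0, 0, 0), (0, 0, 0)⟩,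
  ⟨2, 5, 5, 8, (4, 2, 13), [.R (2, 1, 7)], (0, 0, 0), (0, 0, 0), (0, 0, 0), (0, 0, 0)⟩,
  ⟨5, 8, 3, 4, (13, 9, 81), [.R (1, 1, 14), .E (0, 0, 1) (0, 1, 0), .R (22, 7, 29), .E (9, 3,
    13) (6, 1, 0), .R (11, 4, 19), .R (2, 1, 7)], (0, 0, 0), (0, 0, 0), (0, 0, 0), (0, 0, 0)⟩,
  ⟨3, 4, 1, 1, (1, 1, 13), [.E (0, 0, 1) (0, 1, 0), .R (1, 0, 1)], (0, 0, 0), (0, 0, 0), (0, 0,
    0), (0, 0, 0)⟩]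

theorem ok13 : chainOk 13 0 1 L13 = true := by decide +kernel

/-- certificate for `d = 14` -/
def L14 : List Piece := [
  ⟨0, 1, 1, 4, (1, 0, 0), [.R (1, 0, 1)], (0, 0, 0), (0, 0, 0), (0, 0, 0), (0, 0, 0)⟩,
  ⟨1, 4, 5, 12, (9, 3, 14), [.R (3, 1, 5)], (0, 0, 0), (0, 0, 0), (0, 0, 0), (0, 0, 0)⟩,
  ⟨5, 12, 4, 9, (81, 36, 224), [.R (9, 4, 25)], (0, 0, 0), (0, 0, 0), (0, 0, 0), (0, 0, 0)⟩,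
  ⟨4, 9, 1, 2, (56, 26, 169), [.E (2, 1, 7) (4, 1, 0)], (0, 0, 0), (0, 0, 0), (2, 1, 7), (0, 1,
    0)⟩,
  ⟨1, 2, 4, 7, (56, 30, 225), [.E (2, 1, 7) (-4, -1, 0)], (2, 1, 7), (0, 1, 0), (7, 4, 32), (-1,
    2, 0)⟩,
  ⟨4, 7, 5, 7, (14, 9, 81), [.R (3, 2, 19), .E (0, 0, 1) (0, 1, 0), .R (1, 0, 1)], (7, 4, 32),
    (-1, 2, 0), (7, 5, 50), (-2, 3, 0)⟩,
  ⟨5, 7, 3, 4, (14, 11, 121), [.R (5, 4, 45), .E (0, 0, 1) (0, 1, 0), .R (1, 0, 1)], (7, 5, 50),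
    (-2, 3, 0), (0, 0, 0), (0, 0, 0)⟩,
  ⟨3, 4, 1, 1, (1, 1, 14), [.E (0, 0, 1) (0, 1, 0), .R (1, 0, 1)], (0, 0, 0), (0, 0, 0), (0, 0,
    0), (0, 0, 0)⟩]

theorem ok14 : chainOk 14 0 1 L14 = true := by decide +kernel

/-- certificate for `d = 15` -/
def L15 : List Piece := [
  ⟨0, 1, 1, 4, (1, 0, 0), [.R (1, 0, 1)], (0, 0, 0), (0, 0, 0), (0, 0, 0), (0, 0, 0)⟩,
  ⟨1, 4, 1, 3, (15, 4, 16), [.R (4, 1, 4), .R (1, 0, 1)], (0, 0, 0), (0, 0, 0), (3, 1, 5), (0,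
    1, 0)⟩,
  ⟨1, 3, 3, 8, (60, 22, 121), [.R (8, 3, 17), .R (2, 1, 8)], (3, 1, 5), (0, 1, 0), (0, 0, 0),
    (0, 0, 0)⟩,
  ⟨3, 8, 5, 8, (4, 2, 15), [.R (2, 1, 8)], (0, 0, 0), (0, 0, 0), (0, 0, 0), (0, 0, 0)⟩,
  ⟨5, 8, 2, 3, (135, 87, 841), [.E (3, 2, 20) (3, 1, 0)], (0, 0, 0), (0, 0, 0), (3, 2, 20), (1,
    -1, 0)⟩,
  ⟨2, 3, 3, 4, (15, 11, 121), [.R (4, 3, 34), .E (0, 0, 1) (0, 1, 0), .R (1, 0, 1)], (3, 2, 20),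
    (1, -1, 0), (0, 0, 0), (0, 0, 0)⟩,
  ⟨3, 4, 1, 1, (1, 1, 15), [.E (0, 0, 1) (0, 1, 0), .R (1, 0, 1)], (0, 0, 0), (0, 0, 0), (0, 0,
    0), (0, 0, 0)⟩]

theorem ok15 : chainOk 15 0 1 L15 = true := by decide +kernel

/-- certificate for `d = 16` -/
def L16 : List Piece := [
  ⟨0, 1, 1, 4, (1, 0, 0), [.R (1, 0, 1)], (0, 0, 0), (0, 0, 0), (4, 1, 4), (0, 1, 0)⟩,
  ⟨1, 4, 2, 5, (9, 3, 16), [.E (4, 1, 4) (-1, 0, 1), .R (1, 0, 1)], (4, 1, 4), (0, 1, 0), (0, 0,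
    0), (0, 0, 0)⟩,
  ⟨2, 5, 1, 2, (16, 7, 49), [.E (2, 1, 8) (1, 0, -4)], (0, 0, 0), (0, 0, 0), (2, 1, 8), (0, 1,
    0)⟩,
  ⟨1, 2, 3, 5, (16, 9, 81), [.E (2, 1, 8) (-1, 0, 4)], (2, 1, 8), (0, 1, 0), (0, 0, 0), (0, 0,
    0)⟩,
  ⟨3, 5, 3, 4, (9, 6, 64), [.E (4, 3, 36) (-1, -1, -15), .E (0, 0, 1) (0, 1, 0), .R (1, 0, 1)],
    (0, 0, 0), (0, 0, 0), (4, 3, 36), (1, -1, 0)⟩,
  ⟨3, 4, 1, 1, (1, 1, 16), [.E (0, 0, 1) (0, 1, 0), .R (1, 0, 1)], (4, 3, 36), (1, -1, 0), (0,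
    0, 0), (0, 0, 0)⟩]

theorem ok16 : chainOk 16 0 1 L16 = true := by decide +kernel

/-- certificate for `d = 17` -/
def L17 : List Piece := [
  ⟨0, 1, 5, 21, (1, 0, 0), [.R (1, 0, 1)], (0, 0, 0), (0, 0, 0), (0, 0, 0), (0, 0, 0)⟩,
  ⟨5, 21, 19, 54, (17, 5, 25), [.R (3, 1, 6), .R (2, 1, 9)], (0, 0, 0), (0, 0, 0), (0, 0, 0),
    (0, 0, 0)⟩,
  ⟨19, 54, 2, 5, (25, 10, 68), [.R (42, 17, 117), .R (7, 3, 22), .R (2, 1, 9)], (0, 0, 0), (0,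
    0, 0), (0, 0, 0), (0, 0, 0)⟩,
  ⟨2, 5, 3, 5, (4, 2, 17), [.R (2, 1, 9)], (0, 0, 0), (0, 0, 0), (0, 0, 0), (0, 0, 0)⟩,
  ⟨3, 5, 5, 7, (9, 6, 68), [.R (3, 2, 23)], (0, 0, 0), (0, 0, 0), (0, 0, 0), (0, 0, 0)⟩,
  ⟨5, 7, 4, 5, (17, 13, 169), [.R (1, 1, 18), .E (0, 0, 1) (0, 1, 0), .R (11, 3, 14), .R (3, 1,
    6), .R (2, 1, 9)], (0, 0, 0), (0, 0, 0), (0, 0, 0), (0, 0, 0)⟩,
  ⟨4, 5, 1, 1, (1, 1, 17), [.E (0, 0, 1) (0, 1, 0), .R (1, 0, 1)], (0, 0, 0), (0, 0, 0), (0, 0,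
    0), (0, 0, 0)⟩]

theorem ok17 : chainOk 17 0 1 L17 = true := by decide +kernel

/-- certificate for `d = 18` -/
def L18 : List Piece := [
  ⟨0, 1, 3, 13, (1, 0, 0), [.R (1, 0, 1)], (0, 0, 0), (0, 0, 0), (0, 0, 0), (0, 0, 0)⟩,
  ⟨3, 13, 1, 3, (18, 5, 25), [.E (3, 1, 6) (1, 0, -2)], (0, 0, 0), (0, 0, 0), (3, 1, 6), (0, 1,
    0)⟩,
  ⟨1, 3, 4, 9, (18, 7, 49), [.E (3, 1, 6) (-1, 0, 2)], (3, 1, 6), (0, 1, 0), (9, 4, 32), (1, -2,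
    0)⟩,
  ⟨4, 9, 1, 2, (72, 34, 289), [.E (2, 1, 9) (4, 1, 0)], (9, 4, 32), (1, -2, 0), (2, 1, 9), (0,
    1, 0)⟩,
  ⟨1, 2, 5, 9, (72, 38, 361), [.E (2, 1, 9) (-4, -1, 0)], (2, 1, 9), (0, 1, 0), (9, 5, 50), (-1,
    2, 0)⟩,
  ⟨5, 9, 2, 3, (18, 11, 121), [.E (3, 2, 24) (2, 1, 8)], (9, 5, 50), (-1, 2, 0), (3, 2, 24), (1,
    -1, 0)⟩,
  ⟨2, 3, 10, 13, (18, 13, 169), [.E (3, 2, 24) (-2, -1, -8)], (3, 2, 24), (1, -1, 0), (0, 0, 0),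
    (0, 0, 0)⟩,
  ⟨10, 13, 1, 1, (1, 1, 18), [.E (0, 0, 1) (0, 1, 0), .R (1, 0, 1)], (0, 0, 0), (0, 0, 0), (0,
    0, 0), (0, 0, 0)⟩]

theorem ok18 : chainOk 18 0 1 L18 = true := by decide +kernel

/-- certificate for `d = 19` -/
def L19 : List Piece := [
  ⟨0, 1, 2, 9, (1, 0, 0), [.R (1, 0, 1)], (0, 0, 0), (0, 0, 0), (0, 0, 0), (0, 0, 0)⟩,
  ⟨2, 9, 2, 7, (19, 5, 25), [.R (4, 1, 5), .R (1, 0, 1)], (0, 0, 0), (0, 0, 0), (0, 0, 0), (0,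
    0, 0)⟩,
  ⟨2, 7, 2, 5, (9, 3, 19), [.R (4, 1, 5), .R (5, 1, 4), .R (1, 0, 1)], (0, 0, 0), (0, 0, 0), (0,
    0, 0), (0, 0, 0)⟩,
  ⟨2, 5, 3, 5, (4, 2, 19), [.R (2, 1, 10)], (0, 0, 0), (0, 0, 0), (0, 0, 0), (0, 0, 0)⟩,
  ⟨3, 5, 17, 23, (9, 6, 76), [.R (1, 1, 20), .E (0, 0, 1) (0, 1, 0), .R (5, 1, 4), .R (4, 1,
    5)], (0, 0, 0), (0, 0, 0), (0, 0, 0), (0, 0, 0)⟩,
  ⟨17, 23, 4, 5, (19, 15, 225), [.R (5, 4, 61), .E (0, 0, 1) (0, 1, 0), .R (1, 0, 1)], (0, 0,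
    0), (0, 0, 0), (0, 0, 0), (0, 0, 0)⟩,
  ⟨4, 5, 1, 1, (1, 1, 19), [.E (0, 0, 1) (0, 1, 0), .R (1, 0, 1)], (0, 0, 0), (0, 0, 0), (0, 0,
    0), (0, 0, 0)⟩]

theorem ok19 : chainOk 19 0 1 L19 = true := by decide +kernel

/-- certificate for `d = 20` -/
def L20 : List Piece := [
  ⟨0, 1, 2, 9, (1, 0, 0), [.R (1, 0, 1)], (0, 0, 0), (0, 0, 0), (0, 0, 0), (0, 0, 0)⟩,
  ⟨2, 9, 1, 4, (80, 18, 81), [.R (9, 2, 9), .R (1, 0, 1)], (0, 0, 0), (0, 0, 0), (4, 1, 5), (0,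
    1, 0)⟩,
  ⟨1, 4, 2, 7, (80, 22, 121), [.R (43, 12, 67), .E (10, 3, 18) (5, 1, 3), .R (3, 1, 7)], (4, 1,
    5), (0, 1, 0), (0, 0, 0), (0, 0, 0)⟩,
  ⟨2, 7, 11, 27, (9, 3, 20), [.R (3, 1, 7)], (0, 0, 0), (0, 0, 0), (0, 0, 0), (0, 0, 0)⟩,
  ⟨11, 27, 1, 2, (20, 9, 81), [.E (2, 1, 10) (1, 0, -5)], (0, 0, 0), (0, 0, 0), (2, 1, 10), (0,
    1, 0)⟩,
  ⟨1, 2, 16, 27, (20, 11, 121), [.E (2, 1, 10) (-1, 0, 5)], (2, 1, 10), (0, 1, 0), (0, 0, 0),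
    (0, 0, 0)⟩,
  ⟨16, 27, 5, 7, (9, 6, 80), [.R (3, 2, 27)], (0, 0, 0), (0, 0, 0), (0, 0, 0), (0, 0, 0)⟩,
  ⟨5, 7, 3, 4, (80, 58, 841), [.R (3, 2, 27), .E (2, 1, 10) (-1, 0, 5), .R (3, 1, 7)], (0, 0,
    0), (0, 0, 0), (4, 3, 45), (1, -1, 0)⟩,
  ⟨3, 4, 7, 9, (80, 62, 961), [.R (9, 7, 109), .E (0, 0, 1) (0, 1, 0), .R (1, 0, 1)], (4, 3,
    45), (1, -1, 0), (0, 0, 0), (0, 0, 0)⟩,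
  ⟨7, 9, 1, 1, (1, 1, 20), [.E (0, 0, 1) (0, 1, 0), .R (1, 0, 1)], (0, 0, 0), (0, 0, 0), (0, 0,
    0), (0, 0, 0)⟩]

theorem ok20 : chainOk 20 0 1 L20 = true := by decide +kernel

/-- certificate for `d = 21` -/
def L21 : List Piece := [
  ⟨0, 1, 1, 5, (1, 0, 0), [.R (1, 0, 1)], (0, 0, 0), (0, 0, 0), (0, 0, 0), (0, 0, 0)⟩,
  ⟨1, 5, 3, 10, (16, 4, 21), [.R (10, 3, 19), .E (3, 1, 7) (6, 1, 0), .R (5, 2, 17), .R (2, 1,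
    11)], (0, 0, 0), (0, 0, 0), (0, 0, 0), (0, 0, 0)⟩,
  ⟨3, 10, 1, 3, (84, 26, 169), [.E (3, 1, 7) (6, 1, 0), .R (5, 2, 17), .R (2, 1, 11)], (0, 0,
    0), (0, 0, 0), (3, 1, 7), (0, 1, 0)⟩,
  ⟨1, 3, 2, 5, (21, 8, 64), [.R (5, 2, 17), .R (2, 1, 11)], (3, 1, 7), (0, 1, 0), (0, 0, 0), (0,
    0, 0)⟩,
  ⟨2, 5, 3, 5, (4, 2, 21), [.R (2, 1, 11)], (0, 0, 0), (0, 0, 0), (0, 0, 0), (0, 0, 0)⟩,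
  ⟨3, 5, 2, 3, (21, 13, 169), [.R (5, 3, 38), .R (2, 1, 11)], (0, 0, 0), (0, 0, 0), (3, 2, 28),
    (1, -1, 0)⟩,
  ⟨2, 3, 5, 7, (84, 58, 841), [.E (3, 2, 28) (-3, -1, 0), .R (5, 3, 38), .R (2, 1, 11)], (3, 2,
    28), (1, -1, 0), (7, 5, 75), (-2, 3, 0)⟩,
  ⟨5, 7, 4, 5, (21, 16, 256), [.R (37, 28, 445), .R (10, 7, 103), .E (3, 2, 28) (-3, -1, 0),
    .R (5, 3, 38), .R (2, 1, 11)], (7, 5, 75), (-2, 3, 0), (0, 0, 0), (0, 0, 0)⟩,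
  ⟨4, 5, 1, 1, (1, 1, 21), [.E (0, 0, 1) (0, 1, 0), .R (1, 0, 1)], (0, 0, 0), (0, 0, 0), (0, 0,
    0), (0, 0, 0)⟩]

theorem ok21 : chainOk 21 0 1 L21 = true := by decide +kernel

/-- certificate for `d = 23` -/
def L23 : List Piece := [
  ⟨0, 1, 1, 5, (1, 0, 0), [.R (1, 0, 1)], (0, 0, 0), (0, 0, 0), (0, 0, 0), (0, 0, 0)⟩,
  ⟨1, 5, 2, 7, (16, 4, 23), [.R (4, 1, 6)], (0, 0, 0), (0, 0, 0), (0, 0, 0), (0, 0, 0)⟩,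
  ⟨2, 7, 2, 5, (9, 3, 23), [.R (3, 1, 8)], (0, 0, 0), (0, 0, 0), (0, 0, 0), (0, 0, 0)⟩,
  ⟨2, 5, 3, 5, (4, 2, 23), [.R (2, 1, 12)], (0, 0, 0), (0, 0, 0), (0, 0, 0), (0, 0, 0)⟩,
  ⟨3, 5, 5, 7, (9, 6, 92), [.R (3, 2, 31)], (0, 0, 0), (0, 0, 0), (0, 0, 0), (0, 0, 0)⟩,
  ⟨5, 7, 4, 5, (16, 12, 207), [.R (4, 3, 52)], (0, 0, 0), (0, 0, 0), (0, 0, 0), (0, 0, 0)⟩,
  ⟨4, 5, 1, 1, (1, 1, 23), [.E (0, 0, 1) (0, 1, 0), .R (1, 0, 1)], (0, 0, 0), (0, 0, 0), (0, 0,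
    0), (0, 0, 0)⟩]

theorem ok23 : chainOk 23 0 1 L23 = true := by decide +kernel

/-- certificate for `d = 24` -/
def L24 : List Piece := [
  ⟨0, 1, 1, 5, (1, 0, 0), [.R (1, 0, 1)], (0, 0, 0), (0, 0, 0), (0, 0, 0), (0, 0, 0)⟩,
  ⟨1, 5, 1, 4, (24, 5, 25), [.R (5, 1, 5), .R (1, 0, 1)], (0, 0, 0), (0, 0, 0), (4, 1, 6), (0,
    1, 0)⟩,
  ⟨1, 4, 1, 3, (24, 7, 49), [.E (4, 1, 6) (-2, 0, 3), .R (5, 1, 5), .R (1, 0, 1)], (4, 1, 6),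
    (0, 1, 0), (3, 1, 8), (0, 1, 0)⟩,
  ⟨1, 3, 4, 11, (96, 34, 289), [.E (3, 1, 8) (-6, -1, 0), .E (4, 1, 6) (-2, 0, 3), .R (5, 1, 5),
    .R (1, 0, 1)], (3, 1, 8), (0, 1, 0), (0, 0, 0), (0, 0, 0)⟩,
  ⟨4, 11, 3, 7, (25, 10, 96), [.R (7, 3, 31), .E (2, 1, 12) (1, 0, -6)], (0, 0, 0), (0, 0, 0),
    (0, 0, 0), (0, 0, 0)⟩,
  ⟨3, 7, 1, 2, (24, 11, 121), [.E (2, 1, 12) (1, 0, -6)], (0, 0, 0), (0, 0, 0), (2, 1, 12), (0,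
    1, 0)⟩,
  ⟨1, 2, 4, 7, (24, 13, 169), [.E (2, 1, 12) (-1, 0, 6)], (2, 1, 12), (0, 1, 0), (0, 0, 0), (0,
    0, 0)⟩,
  ⟨4, 7, 7, 11, (25, 15, 216), [.R (7, 4, 55), .E (2, 1, 12) (-1, 0, 6)], (0, 0, 0), (0, 0, 0),
    (0, 0, 0), (0, 0, 0)⟩,
  ⟨7, 11, 2, 3, (96, 62, 961), [.E (3, 2, 32) (3, 1, 0), .E (4, 3, 54) (2, 1, 9), .R (5, 4, 77),
    .E (0, 0, 1) (0, 1, 0), .R (1, 0, 1)], (0, 0, 0), (0, 0, 0), (3, 2, 32), (1, -1, 0)⟩,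
  ⟨2, 3, 3, 4, (24, 17, 289), [.E (4, 3, 54) (2, 1, 9), .R (5, 4, 77), .E (0, 0, 1) (0, 1, 0),
    .R (1, 0, 1)], (3, 2, 32), (1, -1, 0), (4, 3, 54), (1, -1, 0)⟩,
  ⟨3, 4, 4, 5, (24, 19, 361), [.R (5, 4, 77), .E (0, 0, 1) (0, 1, 0), .R (1, 0, 1)], (4, 3, 54),
    (1, -1, 0), (0, 0, 0), (0, 0, 0)⟩,
  ⟨4, 5, 1, 1, (1, 1, 24), [.E (0, 0, 1) (0, 1, 0), .R (1, 0, 1)], (0, 0, 0), (0, 0, 0), (0, 0,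
    0), (0, 0, 0)⟩]

theorem ok24 : chainOk 24 0 1 L24 = true := by decide +kernel

/-- certificate for `d = 25` -/
def L25 : List Piece := [
  ⟨0, 1, 1, 5, (1, 0, 0), [.R (1, 0, 1)], (0, 0, 0), (0, 0, 0), (5, 1, 5), (0, 1, 0)⟩,
  ⟨1, 5, 2, 7, (16, 4, 25), [.E (5, 1, 5) (-1, 0, 1), .R (1, 0, 1)], (5, 1, 5), (0, 1, 0), (0,
    0, 0), (0, 0, 0)⟩,
  ⟨2, 7, 2, 5, (9, 3, 25), [.E (5, 2, 20) (3, 1, 8), .R (2, 1, 13)], (0, 0, 0), (0, 0, 0), (5,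
    2, 20), (1, -2, 0)⟩,
  ⟨2, 5, 3, 5, (4, 2, 25), [.R (2, 1, 13)], (5, 2, 20), (1, -2, 0), (5, 3, 45), (-1, 2, 0)⟩,
  ⟨3, 5, 5, 7, (9, 6, 100), [.E (5, 3, 45) (-2, -1, -12), .R (2, 1, 13)], (5, 3, 45), (-1, 2,
    0), (0, 0, 0), (0, 0, 0)⟩,
  ⟨5, 7, 4, 5, (16, 12, 225), [.E (5, 4, 80) (-1, -1, -24), .E (0, 0, 1) (0, 1, 0), .R (1, 0,
    1)], (0, 0, 0), (0, 0, 0), (5, 4, 80), (1, -1, 0)⟩,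
  ⟨4, 5, 1, 1, (1, 1, 25), [.E (0, 0, 1) (0, 1, 0), .R (1, 0, 1)], (5, 4, 80), (1, -1, 0), (0,
    0, 0), (0, 0, 0)⟩]

theorem ok25 : chainOk 25 0 1 L25 = true := by decide +kernel

/-- certificate for `d = 26` -/
def L26 : List Piece := [
  ⟨0, 1, 1, 6, (1, 0, 0), [.R (1, 0, 1)], (0, 0, 0), (0, 0, 0), (0, 0, 0), (0, 0, 0)⟩,
  ⟨1, 6, 4, 17, (25, 5, 26), [.R (43, 9, 49), .R (37, 8, 45), .R (21, 5, 31), .E (8, 2, 13) (8,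
    1, 0), .R (7, 2, 15), .R (3, 1, 9)], (0, 0, 0), (0, 0, 0), (0, 0, 0), (0, 0, 0)⟩,
  ⟨4, 17, 2, 7, (26, 7, 49), [.R (7, 2, 15), .R (3, 1, 9)], (0, 0, 0), (0, 0, 0), (0, 0, 0), (0,
    0, 0)⟩,
  ⟨2, 7, 7, 18, (9, 3, 26), [.R (3, 1, 9)], (0, 0, 0), (0, 0, 0), (0, 0, 0), (0, 0, 0)⟩,
  ⟨7, 18, 6, 13, (26, 11, 121), [.R (5, 2, 21), .R (3, 1, 9)], (0, 0, 0), (0, 0, 0), (13, 6,
    72), (1, -2, 0)⟩,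
  ⟨6, 13, 1, 2, (104, 50, 625), [.E (2, 1, 13) (4, 1, 0)], (13, 6, 72), (1, -2, 0), (2, 1, 13),
    (0, 1, 0)⟩,
  ⟨1, 2, 7, 13, (104, 54, 729), [.E (2, 1, 13) (-4, -1, 0)], (2, 1, 13), (0, 1, 0), (13, 7, 98),
    (-1, 2, 0)⟩,
  ⟨7, 13, 11, 18, (26, 15, 225), [.R (5, 3, 47), .R (3, 2, 35)], (13, 7, 98), (-1, 2, 0), (0, 0,
    0), (0, 0, 0)⟩,
  ⟨11, 18, 5, 7, (9, 6, 104), [.R (3, 2, 35)], (0, 0, 0), (0, 0, 0), (0, 0, 0), (0, 0, 0)⟩,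
  ⟨5, 7, 10, 13, (26, 19, 361), [.R (7, 5, 93), .R (3, 2, 35)], (0, 0, 0), (0, 0, 0), (13, 10,
    200), (-3, 4, 0)⟩,
  ⟨10, 13, 5, 6, (26, 21, 441), [.R (1, 1, 27), .E (0, 0, 1) (0, 1, 0), .R (43, 9, 49), .R (37,
    8, 45), .R (21, 5, 31), .E (8, 2, 13) (8, 1, 0), .R (7, 2, 15), .R (3, 1, 9)], (13, 10,
    200), (-3, 4, 0), (0, 0, 0), (0, 0, 0)⟩,
  ⟨5, 6, 1, 1, (1, 1, 26), [.E (0, 0, 1) (0, 1, 0), .R (1, 0, 1)], (0, 0, 0), (0, 0, 0), (0, 0,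
    0), (0, 0, 0)⟩]

theorem ok26 : chainOk 26 0 1 L26 = true := by decide +kernel

/-- certificate for `d = 27` -/
def L27 : List Piece := [
  ⟨0, 1, 1, 6, (1, 0, 0), [.R (1, 0, 1)], (0, 0, 0), (0, 0, 0), (0, 0, 0), (0, 0, 0)⟩,
  ⟨1, 6, 2, 9, (25, 5, 27), [.E (9, 2, 12) (6, 1, 4), .R (4, 1, 7)], (0, 0, 0), (0, 0, 0), (0,
    0, 0), (0, 0, 0)⟩,
  ⟨2, 9, 11, 37, (16, 4, 27), [.R (4, 1, 7)], (0, 0, 0), (0, 0, 0), (0, 0, 0), (0, 0, 0)⟩,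
  ⟨11, 37, 1, 3, (108, 34, 289), [.E (3, 1, 9) (1, 0, -3), .E (3, 1, 9) (1, 0, -3)], (0, 0, 0),
    (0, 0, 0), (3, 1, 9), (0, 1, 0)⟩,
  ⟨1, 3, 13, 32, (27, 10, 100), [.E (3, 1, 9) (-1, 0, 3)], (3, 1, 9), (0, 1, 0), (0, 0, 0), (0,
    0, 0)⟩,
  ⟨13, 32, 19, 32, (4, 2, 27), [.R (2, 1, 14)], (0, 0, 0), (0, 0, 0), (0, 0, 0), (0, 0, 0)⟩,
  ⟨19, 32, 2, 3, (27, 17, 289), [.E (3, 2, 36) (2, 1, 12)], (0, 0, 0), (0, 0, 0), (3, 2, 36),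
    (1, -1, 0)⟩,
  ⟨2, 3, 5, 7, (27, 19, 361), [.E (3, 2, 36) (-2, -1, -12)], (3, 2, 36), (1, -1, 0), (0, 0, 0),
    (0, 0, 0)⟩,
  ⟨5, 7, 11, 14, (16, 12, 243), [.R (4, 3, 61)], (0, 0, 0), (0, 0, 0), (0, 0, 0), (0, 0, 0)⟩,
  ⟨11, 14, 5, 6, (27, 22, 484), [.R (1, 1, 28), .E (0, 0, 1) (0, 1, 0), .E (9, 2, 12) (6, 1, 4),
    .R (4, 1, 7)], (0, 0, 0), (0, 0, 0), (0, 0, 0), (0, 0, 0)⟩,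
  ⟨5, 6, 1, 1, (1, 1, 27), [.E (0, 0, 1) (0, 1, 0), .R (1, 0, 1)], (0, 0, 0), (0, 0, 0), (0, 0,
    0), (0, 0, 0)⟩]

theorem ok27 : chainOk 27 0 1 L27 = true := by decide +kernel

/-- certificate for `d = 29` -/
def L29 : List Piece := [
  ⟨0, 1, 2, 11, (1, 0, 0), [.R (1, 0, 1)], (0, 0, 0), (0, 0, 0), (0, 0, 0), (0, 0, 0)⟩,
  ⟨2, 11, 2, 9, (29, 6, 36), [.R (5, 1, 6), .R (1, 0, 1)], (0, 0, 0), (0, 0, 0), (0, 0, 0), (0,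
    0, 0)⟩,
  ⟨2, 9, 2, 7, (16, 4, 29), [.R (5, 1, 6), .R (6, 1, 5), .R (1, 0, 1)], (0, 0, 0), (0, 0, 0),
    (0, 0, 0), (0, 0, 0)⟩,
  ⟨2, 7, 5, 13, (9, 3, 29), [.R (3, 1, 10)], (0, 0, 0), (0, 0, 0), (0, 0, 0), (0, 0, 0)⟩,
  ⟨5, 13, 3, 7, (29, 12, 144), [.R (27, 11, 130), .R (3, 1, 10), .R (15, 4, 31), .R (5, 1, 6),
    .R (6, 1, 5), .R (1, 0, 1)], (0, 0, 0), (0, 0, 0), (0, 0, 0), (0, 0, 0)⟩,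
  ⟨3, 7, 10, 17, (4, 2, 29), [.R (2, 1, 15)], (0, 0, 0), (0, 0, 0), (0, 0, 0), (0, 0, 0)⟩,
  ⟨10, 17, 5, 8, (29, 18, 324), [.R (3, 2, 39), .R (1, 1, 30), .E (0, 0, 1) (0, 1, 0), .R (6, 1,
    5), .R (5, 1, 6)], (0, 0, 0), (0, 0, 0), (0, 0, 0), (0, 0, 0)⟩,
  ⟨5, 8, 5, 7, (9, 6, 116), [.R (3, 2, 39)], (0, 0, 0), (0, 0, 0), (0, 0, 0), (0, 0, 0)⟩,
  ⟨5, 7, 27, 34, (16, 12, 261), [.R (1, 1, 30), .E (0, 0, 1) (0, 1, 0), .R (6, 1, 5), .R (5, 1,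
    6)], (0, 0, 0), (0, 0, 0), (0, 0, 0), (0, 0, 0)⟩,
  ⟨27, 34, 5, 6, (29, 24, 576), [.R (6, 5, 121), .E (0, 0, 1) (0, 1, 0), .R (1, 0, 1)], (0, 0,
    0), (0, 0, 0), (0, 0, 0), (0, 0, 0)⟩,
  ⟨5, 6, 1, 1, (1, 1, 29), [.E (0, 0, 1) (0, 1, 0), .R (1, 0, 1)], (0, 0, 0), (0, 0, 0), (0, 0,
    0), (0, 0, 0)⟩]

theorem ok29 : chainOk 29 0 1 L29 = true := by decide +kernel

/-- certificate for `d = 31` -/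
def L31 : List Piece := [
  ⟨0, 1, 1, 6, (1, 0, 0), [.R (1, 0, 1)], (0, 0, 0), (0, 0, 0), (0, 0, 0), (0, 0, 0)⟩,
  ⟨1, 6, 2, 9, (25, 5, 31), [.R (14, 3, 20), .R (4, 1, 8), .R (20, 7, 76), .R (8, 3, 35), .R (5,
    2, 25)], (0, 0, 0), (0, 0, 0), (0, 0, 0), (0, 0, 0)⟩,
  ⟨2, 9, 2, 7, (16, 4, 31), [.R (4, 1, 8)], (0, 0, 0), (0, 0, 0), (0, 0, 0), (0, 0, 0)⟩,
  ⟨2, 7, 7, 18, (9, 3, 31), [.R (20, 7, 76), .R (8, 3, 35), .R (5, 2, 25)], (0, 0, 0), (0, 0,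
    0), (0, 0, 0), (0, 0, 0)⟩,
  ⟨7, 18, 3, 7, (31, 13, 169), [.R (7, 3, 40), .R (2, 1, 16)], (0, 0, 0), (0, 0, 0), (0, 0, 0),
    (0, 0, 0)⟩,
  ⟨3, 7, 7, 12, (4, 2, 31), [.R (2, 1, 16)], (0, 0, 0), (0, 0, 0), (0, 0, 0), (0, 0, 0)⟩,
  ⟨7, 12, 5, 8, (31, 19, 361), [.R (5, 3, 56), .R (2, 1, 16)], (0, 0, 0), (0, 0, 0), (0, 0, 0),
    (0, 0, 0)⟩,
  ⟨5, 8, 5, 7, (9, 6, 124), [.R (2, 1, 16), .R (7, 3, 40), .R (5, 2, 25)], (0, 0, 0), (0, 0, 0),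
    (0, 0, 0), (0, 0, 0)⟩,
  ⟨5, 7, 7, 9, (16, 12, 279), [.R (4, 3, 70)], (0, 0, 0), (0, 0, 0), (0, 0, 0), (0, 0, 0)⟩,
  ⟨7, 9, 5, 6, (31, 25, 625), [.R (56, 45, 1121), .R (4, 3, 70), .R (10, 7, 152), .R (2, 1, 16),
    .R (7, 3, 40), .R (5, 2, 25)], (0, 0, 0), (0, 0, 0), (0, 0, 0), (0, 0, 0)⟩,
  ⟨5, 6, 1, 1, (1, 1, 31), [.E (0, 0, 1) (0, 1, 0), .R (1, 0, 1)], (0, 0, 0), (0, 0, 0), (0, 0,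
    0), (0, 0, 0)⟩]

theorem ok31 : chainOk 31 0 1 L31 = true := by decide +kernel

/-- certificate for `d = 32` -/
def L32 : List Piece := [
  ⟨0, 1, 1, 6, (1, 0, 0), [.R (1, 0, 1)], (0, 0, 0), (0, 0, 0), (0, 0, 0), (0, 0, 0)⟩,
  ⟨1, 6, 1, 5, (25, 5, 32), [.E (4, 1, 8) (1, 0, -2), .R (3, 1, 11)], (0, 0, 0), (0, 0, 0), (0,
    0, 0), (0, 0, 0)⟩,
  ⟨1, 5, 1, 4, (32, 7, 49), [.E (4, 1, 8) (1, 0, -2)], (0, 0, 0), (0, 0, 0), (4, 1, 8), (0, 1,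
    0)⟩,
  ⟨1, 4, 2, 7, (32, 9, 81), [.E (4, 1, 8) (-1, 0, 2)], (4, 1, 8), (0, 1, 0), (0, 0, 0), (0, 0,
    0)⟩,
  ⟨2, 7, 5, 13, (9, 3, 32), [.R (3, 1, 11)], (0, 0, 0), (0, 0, 0), (0, 0, 0), (0, 0, 0)⟩,
  ⟨5, 13, 3, 7, (32, 13, 169), [.R (57, 23, 297), .E (8, 3, 36) (2, 1, 15), .R (3, 1, 11)], (0,
    0, 0), (0, 0, 0), (0, 0, 0), (0, 0, 0)⟩,
  ⟨3, 7, 4, 9, (81, 36, 512), [.R (9, 4, 57)], (0, 0, 0), (0, 0, 0), (0, 0, 0), (0, 0, 0)⟩,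
  ⟨4, 9, 1, 2, (32, 15, 225), [.E (2, 1, 16) (1, 0, -8)], (0, 0, 0), (0, 0, 0), (2, 1, 16), (0,
    1, 0)⟩,
  ⟨1, 2, 5, 9, (32, 17, 289), [.E (2, 1, 16) (-1, 0, 8)], (2, 1, 16), (0, 1, 0), (0, 0, 0), (0,
    0, 0)⟩,
  ⟨5, 9, 4, 7, (49, 28, 512), [.R (9, 5, 89), .E (2, 1, 16) (-1, 0, 8)], (0, 0, 0), (0, 0, 0),
    (0, 0, 0), (0, 0, 0)⟩,
  ⟨4, 7, 5, 8, (25, 15, 288), [.E (8, 5, 100) (2, 1, 15), .R (3, 2, 43)], (0, 0, 0), (0, 0, 0),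
    (0, 0, 0), (0, 0, 0)⟩,
  ⟨5, 8, 5, 7, (9, 6, 128), [.R (3, 2, 43)], (0, 0, 0), (0, 0, 0), (0, 0, 0), (0, 0, 0)⟩,
  ⟨5, 7, 3, 4, (32, 23, 529), [.E (4, 3, 72) (-1, -1, -30)], (0, 0, 0), (0, 0, 0), (4, 3, 72),
    (1, -1, 0)⟩,
  ⟨3, 4, 4, 5, (32, 25, 625), [.E (4, 3, 72) (1, 1, 30)], (4, 3, 72), (1, -1, 0), (0, 0, 0), (0,
    0, 0)⟩,
  ⟨4, 5, 5, 6, (25, 20, 512), [.E (4, 3, 72) (1, 1, 30), .R (3, 2, 43)], (0, 0, 0), (0, 0, 0),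
    (0, 0, 0), (0, 0, 0)⟩,
  ⟨5, 6, 1, 1, (1, 1, 32), [.E (0, 0, 1) (0, 1, 0), .R (1, 0, 1)], (0, 0, 0), (0, 0, 0), (0, 0,
    0), (0, 0, 0)⟩]

theorem ok32 : chainOk 32 0 1 L32 = true := by decide +kernel

/-- certificate for `d = 35` -/
def L35 : List Piece := [
  ⟨0, 1, 1, 6, (1, 0, 0), [.R (1, 0, 1)], (0, 0, 0), (0, 0, 0), (0, 0, 0), (0, 0, 0)⟩,
  ⟨1, 6, 1, 5, (35, 6, 36), [.R (6, 1, 6), .R (1, 0, 1)], (0, 0, 0), (0, 0, 0), (5, 1, 7), (0,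
    1, 0)⟩,
  ⟨1, 5, 1, 4, (35, 8, 64), [.R (4, 1, 9), .R (3, 1, 12)], (5, 1, 7), (0, 1, 0), (0, 0, 0), (0,
    0, 0)⟩,
  ⟨1, 4, 2, 7, (16, 4, 35), [.R (4, 1, 9)], (0, 0, 0), (0, 0, 0), (0, 0, 0), (0, 0, 0)⟩,
  ⟨2, 7, 3, 8, (9, 3, 35), [.R (3, 1, 12)], (0, 0, 0), (0, 0, 0), (0, 0, 0), (0, 0, 0)⟩,
  ⟨3, 8, 2, 5, (35, 13, 169), [.R (11, 4, 51), .R (3, 1, 12)], (0, 0, 0), (0, 0, 0), (5, 2, 28),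
    (1, -2, 0)⟩,
  ⟨2, 5, 5, 12, (140, 58, 841), [.R (12, 5, 73), .R (2, 1, 18)], (5, 2, 28), (1, -2, 0), (0, 0,
    0), (0, 0, 0)⟩,
  ⟨5, 12, 7, 12, (4, 2, 35), [.R (2, 1, 18)], (0, 0, 0), (0, 0, 0), (0, 0, 0), (0, 0, 0)⟩,
  ⟨7, 12, 3, 5, (140, 82, 1681), [.R (12, 7, 143), .R (2, 1, 18)], (0, 0, 0), (0, 0, 0), (5, 3,
    63), (-1, 2, 0)⟩,
  ⟨3, 5, 5, 8, (35, 22, 484), [.R (11, 7, 156), .R (3, 2, 47)], (5, 3, 63), (-1, 2, 0), (0, 0,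
    0), (0, 0, 0)⟩,
  ⟨5, 8, 5, 7, (9, 6, 140), [.R (3, 2, 47)], (0, 0, 0), (0, 0, 0), (0, 0, 0), (0, 0, 0)⟩,
  ⟨5, 7, 3, 4, (16, 12, 315), [.R (4, 3, 79)], (0, 0, 0), (0, 0, 0), (0, 0, 0), (0, 0, 0)⟩,
  ⟨3, 4, 4, 5, (35, 27, 729), [.R (4, 3, 79), .R (3, 2, 47)], (0, 0, 0), (0, 0, 0), (5, 4, 112),
    (1, -1, 0)⟩,
  ⟨4, 5, 5, 6, (35, 29, 841), [.R (6, 5, 146), .E (0, 0, 1) (0, 1, 0), .R (1, 0, 1)], (5, 4,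
    112), (1, -1, 0), (0, 0, 0), (0, 0, 0)⟩,
  ⟨5, 6, 1, 1, (1, 1, 35), [.E (0, 0, 1) (0, 1, 0), .R (1, 0, 1)], (0, 0, 0), (0, 0, 0), (0, 0,
    0), (0, 0, 0)⟩]

theorem ok35 : chainOk 35 0 1 L35 = true := by decide +kernel

/-- certificate for `d = 36` -/
def L36 : List Piece := [
  ⟨0, 1, 1, 6, (1, 0, 0), [.R (1, 0, 1)], (0, 0, 0), (0, 0, 0), (6, 1, 6), (0, 1, 0)⟩,
  ⟨1, 6, 3, 13, (25, 5, 36), [.E (6, 1, 6) (-1, 0, 1), .R (1, 0, 1)], (6, 1, 6), (0, 1, 0), (0,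
    0, 0), (0, 0, 0)⟩,
  ⟨3, 13, 1, 4, (144, 34, 289), [.R (13, 3, 25), .E (6, 1, 6) (-1, 0, 1), .R (1, 0, 1)], (0, 0,
    0), (0, 0, 0), (4, 1, 9), (0, 1, 0)⟩,
  ⟨1, 4, 3, 11, (144, 38, 361), [.E (4, 1, 9) (-8, -1, 0), .R (13, 3, 25), .E (6, 1, 6) (-1, 0,
    1), .R (1, 0, 1)], (4, 1, 9), (0, 1, 0), (0, 0, 0), (0, 0, 0)⟩,
  ⟨3, 11, 2, 7, (49, 14, 144), [.E (3, 1, 12) (1, 0, -4), .R (5, 2, 29)], (0, 0, 0), (0, 0, 0),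
    (0, 0, 0), (0, 0, 0)⟩,
  ⟨2, 7, 1, 3, (36, 11, 121), [.E (3, 1, 12) (1, 0, -4)], (0, 0, 0), (0, 0, 0), (3, 1, 12), (0,
    1, 0)⟩,
  ⟨1, 3, 3, 8, (36, 13, 169), [.E (3, 1, 12) (-1, 0, 4)], (3, 1, 12), (0, 1, 0), (0, 0, 0), (0,
    0, 0)⟩,
  ⟨3, 8, 3, 7, (25, 10, 144), [.R (5, 2, 29)], (0, 0, 0), (0, 0, 0), (0, 0, 0), (0, 0, 0)⟩,
  ⟨3, 7, 9, 20, (49, 21, 324), [.E (12, 5, 75) (4, 2, 35), .R (5, 2, 29)], (0, 0, 0), (0, 0, 0),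
    (0, 0, 0), (0, 0, 0)⟩,
  ⟨9, 20, 1, 2, (36, 17, 289), [.E (2, 1, 18) (1, 0, -9)], (0, 0, 0), (0, 0, 0), (2, 1, 18), (0,
    1, 0)⟩,
  ⟨1, 2, 11, 20, (36, 19, 361), [.E (2, 1, 18) (-1, 0, 9)], (2, 1, 18), (0, 1, 0), (0, 0, 0),
    (0, 0, 0)⟩,
  ⟨11, 20, 4, 7, (49, 28, 576), [.E (12, 7, 147) (4, 2, 35), .R (5, 3, 65)], (0, 0, 0), (0, 0,
    0), (0, 0, 0), (0, 0, 0)⟩,
  ⟨4, 7, 5, 8, (25, 15, 324), [.R (5, 3, 65)], (0, 0, 0), (0, 0, 0), (0, 0, 0), (0, 0, 0)⟩,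
  ⟨5, 8, 2, 3, (36, 23, 529), [.E (3, 2, 48) (2, 1, 16)], (0, 0, 0), (0, 0, 0), (3, 2, 48), (1,
    -1, 0)⟩,
  ⟨2, 3, 5, 7, (36, 25, 625), [.E (3, 2, 48) (-2, -1, -16)], (3, 2, 48), (1, -1, 0), (0, 0, 0),
    (0, 0, 0)⟩,
  ⟨5, 7, 8, 11, (121, 88, 2304), [.E (3, 2, 48) (-2, -1, -16), .R (5, 3, 65), .E (2, 1, 18) (-1,
    0, 9)], (0, 0, 0), (0, 0, 0), (0, 0, 0), (0, 0, 0)⟩,
  ⟨8, 11, 3, 4, (144, 106, 2809), [.E (4, 3, 81) (4, 2, 27), .R (13, 10, 277), .E (6, 5,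
    150) (-1, -1, -35), .E (0, 0, 1) (0, 1, 0), .R (1, 0, 1)], (0, 0, 0), (0, 0, 0), (4, 3, 81),
    (1, -1, 0)⟩,
  ⟨3, 4, 10, 13, (144, 110, 3025), [.R (13, 10, 277), .E (6, 5, 150) (-1, -1, -35), .E (0, 0,
    1) (0, 1, 0), .R (1, 0, 1)], (4, 3, 81), (1, -1, 0), (0, 0, 0), (0, 0, 0)⟩,
  ⟨10, 13, 5, 6, (25, 20, 576), [.E (6, 5, 150) (-1, -1, -35), .E (0, 0, 1) (0, 1, 0), .R (1, 0,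
    1)], (0, 0, 0), (0, 0, 0), (6, 5, 150), (1, -1, 0)⟩,
  ⟨5, 6, 1, 1, (1, 1, 36), [.E (0, 0, 1) (0, 1, 0), .R (1, 0, 1)], (6, 5, 150), (1, -1, 0), (0,
    0, 0), (0, 0, 0)⟩]

theorem ok36 : chainOk 36 0 1 L36 = true := by decide +kernel

/-- certificate for `d = 39` -/
def L39 : List Piece := [
  ⟨0, 1, 3, 19, (1, 0, 0), [.R (1, 0, 1)], (0, 0, 0), (0, 0, 0), (0, 0, 0), (0, 0, 0)⟩,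
  ⟨3, 19, 1, 5, (39, 7, 49), [.R (5, 1, 8), .R (4, 1, 10)], (0, 0, 0), (0, 0, 0), (0, 0, 0), (0,
    0, 0)⟩,
  ⟨1, 5, 2, 9, (25, 5, 39), [.R (5, 1, 8)], (0, 0, 0), (0, 0, 0), (0, 0, 0), (0, 0, 0)⟩,
  ⟨2, 9, 2, 7, (16, 4, 39), [.R (4, 1, 10)], (0, 0, 0), (0, 0, 0), (0, 0, 0), (0, 0, 0)⟩,
  ⟨2, 7, 5, 16, (100, 30, 351), [.R (4, 1, 10), .R (5, 1, 8), .R (8, 1, 5), .R (10, 1, 4),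
    .R (1, 0, 1)], (0, 0, 0), (0, 0, 0), (0, 0, 0), (0, 0, 0)⟩,
  ⟨5, 16, 1, 3, (156, 50, 625), [.R (16, 5, 61), .R (4, 1, 10), .R (5, 1, 8), .R (8, 1, 5),
    .R (10, 1, 4), .R (1, 0, 1)], (0, 0, 0), (0, 0, 0), (3, 1, 13), (0, 1, 0)⟩,
  ⟨1, 3, 5, 13, (39, 14, 196), [.E (3, 1, 13) (-6, -1, 0), .R (16, 5, 61), .R (4, 1, 10), .R (5,
    1, 8), .R (8, 1, 5), .R (10, 1, 4), .R (1, 0, 1)], (3, 1, 13), (0, 1, 0), (13, 5, 75), (2,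
    -5, 0)⟩,
  ⟨5, 13, 3, 7, (39, 16, 256), [.R (32, 13, 206), .R (8, 3, 44), .E (3, 1, 13) (-6, -1, 0),
    .R (16, 5, 61), .R (4, 1, 10), .R (5, 1, 8), .R (8, 1, 5), .R (10, 1, 4), .R (1, 0, 1)],
    (13, 5, 75), (2, -5, 0), (0, 0, 0), (0, 0, 0)⟩,
  ⟨3, 7, 4, 7, (4, 2, 39), [.R (2, 1, 20)], (0, 0, 0), (0, 0, 0), (0, 0, 0), (0, 0, 0)⟩,
  ⟨4, 7, 5, 8, (25, 15, 351), [.R (8, 5, 122), .E (3, 2, 52) (3, 1, 0), .R (16, 11, 295),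
    .R (64, 45, 1234), .R (41, 29, 800), .R (88, 63, 1759), .R (11, 8, 227), .R (4, 3, 88)], (0,
    0, 0), (0, 0, 0), (0, 0, 0), (0, 0, 0)⟩,
  ⟨5, 8, 2, 3, (39, 25, 625), [.E (3, 2, 52) (3, 1, 0), .R (16, 11, 295), .R (64, 45, 1234),
    .R (41, 29, 800), .R (88, 63, 1759), .R (11, 8, 227), .R (4, 3, 88)], (0, 0, 0), (0, 0, 0),
    (3, 2, 52), (1, -1, 0)⟩,
  ⟨2, 3, 9, 13, (156, 106, 2809), [.R (16, 11, 295), .R (64, 45, 1234), .R (41, 29, 800),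
    .R (88, 63, 1759), .R (11, 8, 227), .R (4, 3, 88)], (3, 2, 52), (1, -1, 0), (13, 9, 243),
    (-2, 3, 0)⟩,
  ⟨9, 13, 5, 7, (39, 28, 784), [.R (11, 8, 227), .R (4, 3, 88)], (13, 9, 243), (-2, 3, 0), (0,
    0, 0), (0, 0, 0)⟩,
  ⟨5, 7, 7, 9, (16, 12, 351), [.R (4, 3, 88)], (0, 0, 0), (0, 0, 0), (0, 0, 0), (0, 0, 0)⟩,
  ⟨7, 9, 4, 5, (25, 20, 624), [.R (5, 4, 125)], (0, 0, 0), (0, 0, 0), (0, 0, 0), (0, 0, 0)⟩,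
  ⟨4, 5, 16, 19, (39, 32, 1024), [.R (5, 4, 125), .R (4, 3, 88)], (0, 0, 0), (0, 0, 0), (0, 0,
    0), (0, 0, 0)⟩,
  ⟨16, 19, 1, 1, (1, 1, 39), [.E (0, 0, 1) (0, 1, 0), .R (1, 0, 1)], (0, 0, 0), (0, 0, 0), (0,
    0, 0), (0, 0, 0)⟩]

theorem ok39 : chainOk 39 0 1 L39 = true := by decide +kernel

/-- certificate for `d = 41` -/
def L41 : List Piece := [
  ⟨0, 1, 2, 13, (1, 0, 0), [.R (1, 0, 1)], (0, 0, 0), (0, 0, 0), (0, 0, 0), (0, 0, 0)⟩,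
  ⟨2, 13, 2, 11, (41, 7, 49), [.R (6, 1, 7), .R (1, 0, 1)], (0, 0, 0), (0, 0, 0), (0, 0, 0), (0,
    0, 0)⟩,
  ⟨2, 11, 2, 9, (25, 5, 41), [.R (6, 1, 7), .R (7, 1, 6), .R (1, 0, 1)], (0, 0, 0), (0, 0, 0),
    (0, 0, 0), (0, 0, 0)⟩,
  ⟨2, 9, 2, 7, (16, 4, 41), [.R (19, 5, 54), .R (18, 5, 57), .R (45, 13, 154), .R (10, 3, 37),
    .R (3, 1, 14)], (0, 0, 0), (0, 0, 0), (0, 0, 0), (0, 0, 0)⟩,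
  ⟨2, 7, 3, 8, (9, 3, 41), [.R (3, 1, 14)], (0, 0, 0), (0, 0, 0), (0, 0, 0), (0, 0, 0)⟩,
  ⟨3, 8, 3, 7, (25, 10, 164), [.R (5, 2, 33)], (0, 0, 0), (0, 0, 0), (0, 0, 0), (0, 0, 0)⟩,
  ⟨3, 7, 4, 7, (4, 2, 41), [.R (2, 1, 21)], (0, 0, 0), (0, 0, 0), (0, 0, 0), (0, 0, 0)⟩,
  ⟨4, 7, 5, 8, (25, 15, 369), [.R (5, 3, 74)], (0, 0, 0), (0, 0, 0), (0, 0, 0), (0, 0, 0)⟩,
  ⟨5, 8, 5, 7, (9, 6, 164), [.R (3, 2, 55)], (0, 0, 0), (0, 0, 0), (0, 0, 0), (0, 0, 0)⟩,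
  ⟨5, 7, 7, 9, (16, 12, 369), [.R (3, 2, 55), .R (5, 3, 74), .R (2, 1, 21), .R (5, 2, 33),
    .R (3, 1, 14)], (0, 0, 0), (0, 0, 0), (0, 0, 0), (0, 0, 0)⟩,
  ⟨7, 9, 39, 47, (25, 20, 656), [.R (1, 1, 42), .E (0, 0, 1) (0, 1, 0), .R (7, 1, 6), .R (6, 1,
    7)], (0, 0, 0), (0, 0, 0), (0, 0, 0), (0, 0, 0)⟩,
  ⟨39, 47, 6, 7, (41, 35, 1225), [.R (7, 6, 211), .E (0, 0, 1) (0, 1, 0), .R (1, 0, 1)], (0, 0,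
    0), (0, 0, 0), (0, 0, 0), (0, 0, 0)⟩,
  ⟨6, 7, 1, 1, (1, 1, 41), [.E (0, 0, 1) (0, 1, 0), .R (1, 0, 1)], (0, 0, 0), (0, 0, 0), (0, 0,
    0), (0, 0, 0)⟩]

theorem ok41 : chainOk 41 0 1 L41 = true := by decide +kernel

/-- certificate for `d = 47` -/
def L47 : List Piece := [
  ⟨0, 1, 1, 7, (1, 0, 0), [.R (1, 0, 1)], (0, 0, 0), (0, 0, 0), (0, 0, 0), (0, 0, 0)⟩,
  ⟨1, 7, 2, 11, (36, 6, 47), [.R (6, 1, 8)], (0, 0, 0), (0, 0, 0), (0, 0, 0), (0, 0, 0)⟩,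
  ⟨2, 11, 2, 9, (25, 5, 47), [.R (24, 5, 49), .R (9, 2, 21), .R (4, 1, 12)], (0, 0, 0), (0, 0,
    0), (0, 0, 0), (0, 0, 0)⟩,
  ⟨2, 9, 2, 7, (16, 4, 47), [.R (4, 1, 12)], (0, 0, 0), (0, 0, 0), (0, 0, 0), (0, 0, 0)⟩,
  ⟨2, 7, 3, 8, (9, 3, 47), [.R (3, 1, 16)], (0, 0, 0), (0, 0, 0), (0, 0, 0), (0, 0, 0)⟩,
  ⟨3, 8, 3, 7, (25, 10, 188), [.R (3, 1, 16), .R (7, 2, 27), .R (4, 1, 12)], (0, 0, 0), (0, 0,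
    0), (0, 0, 0), (0, 0, 0)⟩,
  ⟨3, 7, 4, 7, (4, 2, 47), [.R (2, 1, 24)], (0, 0, 0), (0, 0, 0), (0, 0, 0), (0, 0, 0)⟩,
  ⟨4, 7, 5, 8, (25, 15, 423), [.R (18, 11, 316), .R (8, 5, 147), .R (3, 2, 63)], (0, 0, 0), (0,
    0, 0), (0, 0, 0), (0, 0, 0)⟩,
  ⟨5, 8, 5, 7, (9, 6, 188), [.R (3, 2, 63)], (0, 0, 0), (0, 0, 0), (0, 0, 0), (0, 0, 0)⟩,
  ⟨5, 7, 7, 9, (16, 12, 423), [.R (4, 3, 106)], (0, 0, 0), (0, 0, 0), (0, 0, 0), (0, 0, 0)⟩,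
  ⟨7, 9, 9, 11, (25, 20, 752), [.R (4, 3, 106), .R (7, 5, 168), .R (3, 2, 63)], (0, 0, 0), (0,
    0, 0), (0, 0, 0), (0, 0, 0)⟩,
  ⟨9, 11, 6, 7, (36, 30, 1175), [.R (6, 5, 196)], (0, 0, 0), (0, 0, 0), (0, 0, 0), (0, 0, 0)⟩,
  ⟨6, 7, 1, 1, (1, 1, 47), [.E (0, 0, 1) (0, 1, 0), .R (1, 0, 1)], (0, 0, 0), (0, 0, 0), (0, 0,
    0), (0, 0, 0)⟩]

theorem ok47 : chainOk 47 0 1 L47 = true := by decide +kernel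

/-- certificate for `d = 49` -/
def L49 : List Piece := [
  ⟨0, 1, 1, 7, (1, 0, 0), [.R (1, 0, 1)], (0, 0, 0), (0, 0, 0), (7, 1, 7), (0, 1, 0)⟩,
  ⟨1, 7, 2, 11, (36, 6, 49), [.E (7, 1, 7) (-1, 0, 1), .R (1, 0, 1)], (7, 1, 7), (0, 1, 0), (0,
    0, 0), (0, 0, 0)⟩,
  ⟨2, 11, 2, 9, (25, 5, 49), [.R (5, 1, 10)], (0, 0, 0), (0, 0, 0), (0, 0, 0), (0, 0, 0)⟩,
  ⟨2, 9, 2, 7, (16, 4, 49), [.R (5, 1, 10), .R (17, 3, 26), .E (7, 1, 7) (-1, 0, 1), .R (1, 0,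
    1)], (0, 0, 0), (0, 0, 0), (7, 2, 28), (1, -3, 0)⟩,
  ⟨2, 7, 3, 8, (9, 3, 49), [.E (7, 2, 28) (-4, -1, -12), .R (5, 1, 10), .R (17, 3, 26), .E (7,
    1, 7) (-1, 0, 1), .R (1, 0, 1)], (7, 2, 28), (1, -3, 0), (0, 0, 0), (0, 0, 0)⟩,
  ⟨3, 8, 3, 7, (25, 10, 196), [.E (7, 3, 63) (-2, -1, -24), .R (2, 1, 25)], (0, 0, 0), (0, 0,
    0), (7, 3, 63), (1, -2, 0)⟩,
  ⟨3, 7, 4, 7, (4, 2, 49), [.R (2, 1, 25)], (7, 3, 63), (1, -2, 0), (7, 4, 112), (-1, 2, 0)⟩,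
  ⟨4, 7, 5, 8, (25, 15, 441), [.E (7, 4, 112) (-2, -1, -24), .R (2, 1, 25)], (7, 4, 112), (-1,
    2, 0), (0, 0, 0), (0, 0, 0)⟩,
  ⟨5, 8, 5, 7, (9, 6, 196), [.E (7, 5, 175) (3, 2, 65), .R (13, 10, 377), .R (5, 4, 157), .E (7,
    6, 252) (-1, -1, -48), .E (0, 0, 1) (0, 1, 0), .R (1, 0, 1)], (0, 0, 0), (0, 0, 0), (7, 5,
    175), (-2, 3, 0)⟩,
  ⟨5, 7, 7, 9, (16, 12, 441), [.R (13, 10, 377), .R (5, 4, 157), .E (7, 6, 252) (-1, -1, -48),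
    .E (0, 0, 1) (0, 1, 0), .R (1, 0, 1)], (7, 5, 175), (-2, 3, 0), (0, 0, 0), (0, 0, 0)⟩,
  ⟨7, 9, 9, 11, (25, 20, 784), [.R (5, 4, 157)], (0, 0, 0), (0, 0, 0), (0, 0, 0), (0, 0, 0)⟩,
  ⟨9, 11, 6, 7, (36, 30, 1225), [.E (7, 6, 252) (-1, -1, -48), .E (0, 0, 1) (0, 1, 0), .R (1, 0,
    1)], (0, 0, 0), (0, 0, 0), (7, 6, 252), (1, -1, 0)⟩,
  ⟨6, 7, 1, 1, (1, 1, 49), [.E (0, 0, 1) (0, 1, 0), .R (1, 0, 1)], (7, 6, 252), (1, -1, 0), (0,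
    0, 0), (0, 0, 0)⟩]

theorem ok49 : chainOk 49 0 1 L49 = true := by decide +kernel

/-- certificate for `d = 50` -/
def L50 : List Piece := [
  ⟨0, 1, 1, 8, (1, 0, 0), [.R (1, 0, 1)], (0, 0, 0), (0, 0, 0), (0, 0, 0), (0, 0, 0)⟩,
  ⟨1, 8, 5, 31, (49, 7, 50), [.E (5, 1, 10) (1, 0, -2), .R (3, 1, 17), .E (5, 2, 40) (3, 1, 16),
    .R (9, 4, 89), .R (27, 13, 313), .E (2, 1, 25) (4, 1, 0), .E (45, 24, 640) (21, 11, 288),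
    .R (9, 5, 139), .E (5, 3, 90) (2, 1, 24), .R (3, 2, 67)], (0, 0, 0), (0, 0, 0), (0, 0, 0),
    (0, 0, 0)⟩,
  ⟨5, 31, 1, 5, (50, 9, 81), [.E (5, 1, 10) (1, 0, -2)], (0, 0, 0), (0, 0, 0), (5, 1, 10), (0,
    1, 0)⟩,
  ⟨1, 5, 4, 17, (50, 11, 121), [.E (5, 1, 10) (-1, 0, 2)], (5, 1, 10), (0, 1, 0), (0, 0, 0), (0,
    0, 0)⟩,
  ⟨4, 17, 7, 29, (441, 105, 1250), [.R (33, 8, 97), .E (8, 2, 25) (8, 1, 0), .R (11, 3, 41),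
    .E (10, 3, 45) (4, 1, 12), .R (3, 1, 17)], (0, 0, 0), (0, 0, 0), (0, 0, 0), (0, 0, 0)⟩,
  ⟨7, 29, 3, 11, (50, 13, 169), [.R (11, 3, 41), .E (10, 3, 45) (4, 1, 12), .R (3, 1, 17)], (0,
    0, 0), (0, 0, 0), (0, 0, 0), (0, 0, 0)⟩,
  ⟨3, 11, 3, 10, (49, 14, 200), [.E (10, 3, 45) (4, 1, 12), .R (3, 1, 17)], (0, 0, 0), (0, 0,
    0), (0, 0, 0), (0, 0, 0)⟩,
  ⟨3, 10, 3, 8, (9, 3, 50), [.R (3, 1, 17)], (0, 0, 0), (0, 0, 0), (0, 0, 0), (0, 0, 0)⟩,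
  ⟨3, 8, 2, 5, (50, 19, 361), [.E (5, 2, 40) (3, 1, 16)], (0, 0, 0), (0, 0, 0), (5, 2, 40), (1,
    -2, 0)⟩,
  ⟨2, 5, 7, 16, (50, 21, 441), [.E (5, 2, 40) (-3, -1, -16)], (5, 2, 40), (1, -2, 0), (0, 0, 0),
    (0, 0, 0)⟩,
  ⟨7, 16, 4, 9, (81, 36, 800), [.R (9, 4, 89)], (0, 0, 0), (0, 0, 0), (0, 0, 0), (0, 0, 0)⟩,
  ⟨4, 9, 8, 17, (50, 23, 529), [.R (9, 4, 89), .E (5, 2, 40) (-3, -1, -16), .R (3, 1, 17)], (0,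
    0, 0), (0, 0, 0), (0, 0, 0), (0, 0, 0)⟩,
  ⟨8, 17, 13, 27, (441, 210, 5000), [.R (27, 13, 313), .E (2, 1, 25) (4, 1, 0), .R (9, 5, 139),
    .E (5, 3, 90) (2, 1, 24), .R (3, 2, 67)], (0, 0, 0), (0, 0, 0), (0, 0, 0), (0, 0, 0)⟩,
  ⟨13, 27, 1, 2, (200, 98, 2401), [.E (2, 1, 25) (4, 1, 0)], (0, 0, 0), (0, 0, 0), (2, 1, 25),
    (0, 1, 0)⟩,
  ⟨1, 2, 27, 52, (200, 102, 2601), [.E (2, 1, 25) (-4, -1, 0)], (2, 1, 25), (0, 1, 0), (0, 0,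
    0), (0, 0, 0)⟩,
  ⟨27, 52, 8, 15, (361, 190, 5000), [.R (27, 14, 363), .E (2, 1, 25) (-4, -1, 0), .E (45, 21,
    490) (21, 10, 238), .R (9, 4, 89), .E (5, 2, 40) (-3, -1, -16), .R (3, 1, 17)], (0, 0, 0),
    (0, 0, 0), (0, 0, 0), (0, 0, 0)⟩,
  ⟨8, 15, 5, 9, (50, 27, 729), [.R (9, 5, 139), .E (5, 3, 90) (2, 1, 24), .R (3, 2, 67)], (0, 0,
    0), (0, 0, 0), (0, 0, 0), (0, 0, 0)⟩,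
  ⟨5, 9, 10, 17, (49, 28, 800), [.E (5, 3, 90) (2, 1, 24), .R (3, 2, 67)], (0, 0, 0), (0, 0, 0),
    (0, 0, 0), (0, 0, 0)⟩,
  ⟨10, 17, 3, 5, (450, 267, 7921), [.E (5, 3, 90) (2, 1, 24), .E (5, 3, 90) (2, 1, 24), .E (5,
    3, 90) (2, 1, 24)], (0, 0, 0), (0, 0, 0), (5, 3, 90), (-1, 2, 0)⟩,
  ⟨3, 5, 5, 8, (50, 31, 961), [.E (5, 3, 90) (-2, -1, -24)], (5, 3, 90), (-1, 2, 0), (0, 0, 0),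
    (0, 0, 0)⟩,
  ⟨5, 8, 7, 10, (9, 6, 200), [.R (3, 2, 67)], (0, 0, 0), (0, 0, 0), (0, 0, 0), (0, 0, 0)⟩,
  ⟨7, 10, 8, 11, (49, 35, 1250), [.E (10, 7, 245) (4, 3, 112), .R (3, 2, 67)], (0, 0, 0), (0, 0,
    0), (0, 0, 0), (0, 0, 0)⟩,
  ⟨8, 11, 22, 29, (50, 37, 1369), [.R (11, 8, 291), .E (10, 7, 245) (4, 3, 112), .R (3, 2, 67)],
    (0, 0, 0), (0, 0, 0), (0, 0, 0), (0, 0, 0)⟩,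
  ⟨22, 29, 7, 9, (169, 130, 5000), [.R (3, 2, 67), .E (5, 3, 90) (-2, -1, -24), .R (9, 5, 139),
    .R (27, 14, 363), .E (2, 1, 25) (-4, -1, 0), .E (45, 21, 490) (21, 10, 238), .R (9, 4, 89),
    .E (5, 2, 40) (-3, -1, -16), .R (3, 1, 17)], (0, 0, 0), (0, 0, 0), (0, 0, 0), (0, 0, 0)⟩,
  ⟨7, 9, 4, 5, (50, 39, 1521), [.E (5, 4, 160) (-1, -1, -48)], (0, 0, 0), (0, 0, 0), (5, 4,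
    160), (1, -1, 0)⟩,
  ⟨4, 5, 26, 31, (50, 41, 1681), [.E (5, 4, 160) (1, 1, 48)], (5, 4, 160), (1, -1, 0), (0, 0,
    0), (0, 0, 0)⟩,
  ⟨26, 31, 7, 8, (49, 42, 1800), [.E (5, 4, 160) (1, 1, 48), .R (3, 2, 67), .E (5, 3, 90) (-2,
    -1, -24), .R (9, 5, 139), .R (27, 14, 363), .E (2, 1, 25) (-4, -1, 0), .E (45, 21, 490) (21,
    10, 238), .R (9, 4, 89), .E (5, 2, 40) (-3, -1, -16), .R (3, 1, 17)], (0, 0, 0), (0, 0, 0),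
    (0, 0, 0), (0, 0, 0)⟩,
  ⟨7, 8, 1, 1, (1, 1, 50), [.E (0, 0, 1) (0, 1, 0), .R (1, 0, 1)], (0, 0, 0), (0, 0, 0), (0, 0,
    0), (0, 0, 0)⟩]

theorem ok50 : chainOk 50 0 1 L50 = true := by decide +kernel

/-- certificate for `d = 59` -/
def L59 : List Piece := [
  ⟨0, 1, 1, 8, (1, 0, 0), [.R (1, 0, 1)], (0, 0, 0), (0, 0, 0), (0, 0, 0), (0, 0, 0)⟩,
  ⟨1, 8, 2, 13, (49, 7, 59), [.R (27, 4, 35), .R (6, 1, 10), .R (5, 1, 12)], (0, 0, 0), (0, 0,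
    0), (0, 0, 0), (0, 0, 0)⟩,
  ⟨2, 13, 2, 11, (36, 6, 59), [.R (6, 1, 10)], (0, 0, 0), (0, 0, 0), (0, 0, 0), (0, 0, 0)⟩,
  ⟨2, 11, 2, 9, (25, 5, 59), [.R (5, 1, 12)], (0, 0, 0), (0, 0, 0), (0, 0, 0), (0, 0, 0)⟩,
  ⟨2, 9, 3, 11, (16, 4, 59), [.R (4, 1, 15)], (0, 0, 0), (0, 0, 0), (0, 0, 0), (0, 0, 0)⟩,
  ⟨3, 11, 3, 10, (59, 17, 289), [.R (108, 31, 525), .R (4, 1, 15), .R (14, 3, 38), .R (5, 1,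
    12)], (0, 0, 0), (0, 0, 0), (0, 0, 0), (0, 0, 0)⟩,
  ⟨3, 10, 3, 8, (9, 3, 59), [.R (3, 1, 20)], (0, 0, 0), (0, 0, 0), (0, 0, 0), (0, 0, 0)⟩,
  ⟨3, 8, 14, 33, (25, 10, 236), [.R (42, 17, 406), .R (12, 5, 123), .R (7, 3, 76)], (0, 0, 0),
    (0, 0, 0), (0, 0, 0), (0, 0, 0)⟩,
  ⟨14, 33, 4, 9, (59, 26, 676), [.R (9, 4, 105), .R (2, 1, 30)], (0, 0, 0), (0, 0, 0), (0, 0,
    0), (0, 0, 0)⟩,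
  ⟨4, 9, 9, 16, (4, 2, 59), [.R (2, 1, 30)], (0, 0, 0), (0, 0, 0), (0, 0, 0), (0, 0, 0)⟩,
  ⟨9, 16, 7, 12, (59, 34, 1156), [.R (7, 4, 135), .R (2, 1, 30)], (0, 0, 0), (0, 0, 0), (0, 0,
    0), (0, 0, 0)⟩,
  ⟨7, 12, 5, 8, (25, 15, 531), [.R (2, 1, 30), .R (9, 4, 105), .R (7, 3, 76)], (0, 0, 0), (0, 0,
    0), (0, 0, 0), (0, 0, 0)⟩,
  ⟨5, 8, 7, 10, (9, 6, 236), [.R (3, 2, 79)], (0, 0, 0), (0, 0, 0), (0, 0, 0), (0, 0, 0)⟩,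
  ⟨7, 10, 8, 11, (49, 35, 1475), [.R (18, 13, 554), .R (15, 11, 476), .R (4, 3, 133)], (0, 0,
    0), (0, 0, 0), (0, 0, 0), (0, 0, 0)⟩,
  ⟨8, 11, 7, 9, (16, 12, 531), [.R (4, 3, 133)], (0, 0, 0), (0, 0, 0), (0, 0, 0), (0, 0, 0)⟩,
  ⟨7, 9, 9, 11, (25, 20, 944), [.R (5, 4, 189)], (0, 0, 0), (0, 0, 0), (0, 0, 0), (0, 0, 0)⟩,
  ⟨9, 11, 17, 20, (36, 30, 1475), [.R (6, 5, 246)], (0, 0, 0), (0, 0, 0), (0, 0, 0), (0, 0, 0)⟩,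
  ⟨17, 20, 7, 8, (59, 51, 2601), [.R (36, 31, 1575), .R (6, 5, 246), .R (5, 4, 189), .R (4, 3,
    133)], (0, 0, 0), (0, 0, 0), (0, 0, 0), (0, 0, 0)⟩,
  ⟨7, 8, 1, 1, (1, 1, 59), [.E (0, 0, 1) (0, 1, 0), .R (1, 0, 1)], (0, 0, 0), (0, 0, 0), (0, 0,
    0), (0, 0, 0)⟩]

theorem ok59 : chainOk 59 0 1 L59 = true := by decide +kernel

/-- certificate for `d = 71` -/
def L71 : List Piece := [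
  ⟨0, 1, 2, 17, (1, 0, 0), [.R (1, 0, 1)], (0, 0, 0), (0, 0, 0), (0, 0, 0), (0, 0, 0)⟩,
  ⟨2, 17, 2, 15, (71, 9, 81), [.R (8, 1, 9), .R (1, 0, 1)], (0, 0, 0), (0, 0, 0), (0, 0, 0), (0,
    0, 0)⟩,
  ⟨2, 15, 2, 13, (49, 7, 71), [.R (8, 1, 9), .R (9, 1, 8), .R (1, 0, 1)], (0, 0, 0), (0, 0, 0),
    (0, 0, 0), (0, 0, 0)⟩,
  ⟨2, 13, 2, 11, (36, 6, 71), [.R (6, 1, 12)], (0, 0, 0), (0, 0, 0), (0, 0, 0), (0, 0, 0)⟩,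
  ⟨2, 11, 2, 9, (25, 5, 71), [.R (6, 1, 12), .R (20, 3, 32), .R (8, 1, 9), .R (9, 1, 8), .R (1,
    0, 1)], (0, 0, 0), (0, 0, 0), (0, 0, 0), (0, 0, 0)⟩,
  ⟨2, 9, 3, 11, (16, 4, 71), [.R (4, 1, 18)], (0, 0, 0), (0, 0, 0), (0, 0, 0), (0, 0, 0)⟩,
  ⟨3, 11, 3, 10, (49, 14, 284), [.R (24, 7, 145), .R (10, 3, 64), .R (3, 1, 24)], (0, 0, 0), (0,
    0, 0), (0, 0, 0), (0, 0, 0)⟩,
  ⟨3, 10, 7, 19, (9, 3, 71), [.R (3, 1, 24)], (0, 0, 0), (0, 0, 0), (0, 0, 0), (0, 0, 0)⟩,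
  ⟨7, 19, 5, 13, (71, 27, 729), [.R (8, 3, 80), .R (3, 1, 24)], (0, 0, 0), (0, 0, 0), (0, 0, 0),
    (0, 0, 0)⟩,
  ⟨5, 13, 11, 26, (25, 10, 284), [.R (5, 2, 57)], (0, 0, 0), (0, 0, 0), (0, 0, 0), (0, 0, 0)⟩,
  ⟨11, 26, 4, 9, (71, 31, 961), [.R (30, 13, 400), .R (5, 2, 57), .R (8, 3, 80), .R (3, 1, 24)],
    (0, 0, 0), (0, 0, 0), (0, 0, 0), (0, 0, 0)⟩,
  ⟨4, 9, 5, 9, (4, 2, 71), [.R (2, 1, 36)], (0, 0, 0), (0, 0, 0), (0, 0, 0), (0, 0, 0)⟩,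
  ⟨5, 9, 7, 12, (49, 28, 1136), [.R (40, 23, 939), .R (12, 7, 290), .R (5, 3, 128)], (0, 0, 0),
    (0, 0, 0), (0, 0, 0), (0, 0, 0)⟩,
  ⟨7, 12, 18, 29, (25, 15, 639), [.R (5, 3, 128)], (0, 0, 0), (0, 0, 0), (0, 0, 0), (0, 0, 0)⟩,
  ⟨18, 29, 7, 11, (71, 45, 2025), [.R (8, 5, 222), .R (5, 3, 128)], (0, 0, 0), (0, 0, 0), (0, 0,
    0), (0, 0, 0)⟩,
  ⟨7, 11, 12, 17, (9, 6, 284), [.R (3, 2, 95)], (0, 0, 0), (0, 0, 0), (0, 0, 0), (0, 0, 0)⟩,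
  ⟨12, 17, 8, 11, (71, 51, 2601), [.R (60, 43, 2188), .R (3, 2, 95), .R (8, 5, 222), .R (5, 3,
    128)], (0, 0, 0), (0, 0, 0), (0, 0, 0), (0, 0, 0)⟩,
  ⟨8, 11, 7, 9, (16, 12, 639), [.R (4, 3, 160)], (0, 0, 0), (0, 0, 0), (0, 0, 0), (0, 0, 0)⟩,
  ⟨7, 9, 9, 11, (25, 20, 1136), [.R (16, 13, 750), .R (6, 5, 296), .R (1, 1, 72), .E (0, 0,
    1) (0, 1, 0), .R (9, 1, 8), .R (8, 1, 9)], (0, 0, 0), (0, 0, 0), (0, 0, 0), (0, 0, 0)⟩,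
  ⟨9, 11, 11, 13, (36, 30, 1775), [.R (6, 5, 296)], (0, 0, 0), (0, 0, 0), (0, 0, 0), (0, 0, 0)⟩,
  ⟨11, 13, 69, 79, (49, 42, 2556), [.R (1, 1, 72), .E (0, 0, 1) (0, 1, 0), .R (9, 1, 8), .R (8,
    1, 9)], (0, 0, 0), (0, 0, 0), (0, 0, 0), (0, 0, 0)⟩,
  ⟨69, 79, 8, 9, (71, 63, 3969), [.R (9, 8, 505), .E (0, 0, 1) (0, 1, 0), .R (1, 0, 1)], (0, 0,
    0), (0, 0, 0), (0, 0, 0), (0, 0, 0)⟩,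
  ⟨8, 9, 1, 1, (1, 1, 71), [.E (0, 0, 1) (0, 1, 0), .R (1, 0, 1)], (0, 0, 0), (0, 0, 0), (0, 0,
    0), (0, 0, 0)⟩]

theorem ok71 : chainOk 71 0 1 L71 = true := by decide +kernel

/-- the 38 levels -/
def levels : List ℤ := [1, 2, 3, 4, 5, 6, 7, 8, 9, 10, 11, 12, 13, 14, 15, 16, 17, 18, 19, 20,
    21, 23, 24, 25, 26, 27, 29, 31, 32, 35, 36, 39, 41, 47, 49, 50, 59, 71]

theorem levels_ok {d : ℤ} (h : d ∈ levels) : 0 < d ∧ ∃ L, chainOk d 0 1 L = true := by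
  simp only [levels, List.mem_cons, List.not_mem_nil, or_false] at h
  rcases h with h | h | h | h | h | h | h | h | h | h | h | h | h | h | h | h | h | h | h | h | h | h | h | h | h | h | h | h | h | h | h | h | h | h | h | h | h | h <;> subst h
  · exact ⟨by norm_num, L1, ok1⟩
  · exact ⟨by norm_num, L2, ok2⟩
  · exact ⟨by norm_num, L3, ok3⟩
  · exact ⟨by norm_num, L4, ok4⟩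
  · exact ⟨by norm_num, L5, ok5⟩
  · exact ⟨by norm_num, L6, ok6⟩
  · exact ⟨by norm_num, L7, ok7⟩
  · exact ⟨by norm_num, L8, ok8⟩
  · exact ⟨by norm_num, L9, ok9⟩
  · exact ⟨by norm_num, L10, ok10⟩
  · exact ⟨by norm_num, L11, ok11⟩
  · exact ⟨by norm_num, L12, ok12⟩
  · exact ⟨by norm_num, L13, ok13⟩
  · exact ⟨by norm_num, L14, ok14⟩
  · exact ⟨by norm_num, L15, ok15⟩
  · exact ⟨by norm_num, L16, ok16⟩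
  · exact ⟨by norm_num, L17, ok17⟩
  · exact ⟨by norm_num, L18, ok18⟩
  · exact ⟨by norm_num, L19, ok19⟩
  · exact ⟨by norm_num, L20, ok20⟩
  · exact ⟨by norm_num, L21, ok21⟩
  · exact ⟨by norm_num, L23, ok23⟩
  · exact ⟨by norm_num, L24, ok24⟩
  · exact ⟨by norm_num, L25, ok25⟩
  · exact ⟨by norm_num, L26, ok26⟩
  · exact ⟨by norm_num, L27, ok27⟩
  · exact ⟨by norm_num, L29, ok29⟩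
  · exact ⟨by norm_num, L31, ok31⟩
  · exact ⟨by norm_num, L32, ok32⟩
  · exact ⟨by norm_num, L35, ok35⟩
  · exact ⟨by norm_num, L36, ok36⟩
  · exact ⟨by norm_num, L39, ok39⟩
  · exact ⟨by norm_num, L41, ok41⟩
  · exact ⟨by norm_num, L47, ok47⟩
  · exact ⟨by norm_num, L49, ok49⟩
  · exact ⟨by norm_num, L50, ok50⟩
  · exact ⟨by norm_num, L59, ok59⟩
  · exact ⟨by norm_num, L71, ok71⟩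

end Pool.Agent.K3Aut
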