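import Pool.Agent.K3Aut.Main

set_option linter.unusedSimpArgs false

namespace Pool.Agent.K3Aut

theorem neg_mem_one : ∃ g ∈ Subgroup.closure (gens 1), ∀ v : V, g v = -v := by
  obtain ⟨g, hg, hgv⟩ := exists_of_word 1
    [.E (0, 0, 1) (0, 1, 0), .R (1, 0, 1)] (by decide)
  have hA : ∀ r l s : ℤ, g (r, l, s) = (-s + 2 * l - r, l - r, -r) := by
    intro r l s
    rw [hgv]
    simp only [wapp, Gn.app, rf, tv, pr, qd, Prod.smul_mk, smul_eq_mul, Prod.mk_add_mk,
      Prod.mk_sub_mk, Prod.mk.injEq]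
    refine ⟨by ring, by ring, by ring⟩
  refine ⟨g * g * g, Subgroup.mul_mem _ (Subgroup.mul_mem _ hg hg) hg, fun v => ?_⟩
  obtain ⟨r, l, s⟩ := v
  rw [LinearEquiv.mul_apply, LinearEquiv.mul_apply, hA, hA, hA, Prod.neg_mk, Prod.neg_mk]
  simp only [Prod.mk.injEq]
  refine ⟨by ring, by ring, by ring⟩

theorem gram_mul_left {d : ℤ} (hd : 0 < d) {g ι : V ≃ₗ[ℤ] V} (hg : g ∈ Subgroup.closure (gens d))
    (h : (ι (1, 0, -1) = (1, 0, -1) ∧ ι (0, 1, 0) = -(0, 1, 0)) ∨
      (ι (1, 0, -1) = -(1, 0, -1) ∧ ι (0, 1, 0) = (0, 1, 0))) : gram d (g * ι) < 0 := by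
  have h1 := (mat_of_closure hg).gram_pos hd
  have h2 : gram d (g * ι) = - gram d g := by
    rcases h with ⟨h1, h2⟩ | ⟨h1, h2⟩
    · simp only [gram, LinearEquiv.mul_apply, h1, h2, map_neg]
      simp only [pr, Prod.fst_neg, Prod.snd_neg]
      ring
    · simp only [gram, LinearEquiv.mul_apply, h1, h2, map_neg]
      simp only [pr, Prod.fst_neg, Prod.snd_neg]
      ring
  rw [h2]; linarith

theorem ext_basis {f g : V ≃ₗ[ℤ] V} (h1 : f (1, 0, 0) = g (1, 0, 0))
    (h2 : f (0, 1, 0) = g (0, 1, 0)) (h3 : f (0, 0, 1) = g (0, 0, 1)) : f = g := by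
  ext1 v
  have e : v = v.1 • (1, 0, 0) + v.2.1 • (0, 1, 0) + v.2.2 • (0, 0, 1) := by
    obtain ⟨r, l, s⟩ := v
    simp only [Prod.smul_mk, smul_eq_mul, Prod.mk_add_mk, mul_one, mul_zero, add_zero, zero_add]
  rw [e]
  simp only [map_add, map_smul, h1, h2, h3]

theorem norm_eq {d b : ℤ} (hd : 0 < d) (h : 2 * d * (1 + 2 * d * b) * (1 + 2 * d * b) = 2 * d) :
    b = 0 ∨ (d = 1 ∧ b = -1) := by
  have h1 : (2 * d) * ((1 + 2 * d * b) * (1 + 2 * d * b) - 1) = 0 := by linarith
  have h2 : (1 + 2 * d * b) * (1 + 2 * d * b) - 1 = 0 := by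
    rcases mul_eq_zero.mp h1 with h | h
    · omega
    · exact h
  have h3 : (2 * d * b) * (2 * (1 + d * b)) = 0 := by linarith
  rcases mul_eq_zero.mp h3 with h | h
  · left
    rcases mul_eq_zero.mp h with h | h
    · omega
    · exact h
  · right
    have h4 : d * (-b) = 1 := by linarith
    have h5 : d = 1 := by
      have := Int.eq_one_or_neg_one_of_mul_eq_one h4
      omega
    refine ⟨h5, ?_⟩
    rw [h5] at h4; linarith

theorem mem_closure {d : ℤ} (hd : 0 < d) (L : List Piece) (hc : chainOk d 0 1 L = true)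
    (f : V ≃ₗ[ℤ] V) (hf : Isom d f) (hD : Disc d f) (hG : 0 < gram d f) :
    f ∈ Subgroup.closure (gens d) := by
  obtain ⟨g, hg, hgf⟩ := reduce hd L hc _ f hf hD le_rfl
  have hz : pr d (0, 0, 1) (0, 0, 1) = 0 := by simp [pr]
  have hw : ∀ k, pr d (0, 0, 1) (0, k, 0) = 0 := fun k => by simp [pr]
  have key : ∀ k : ℤ, ∀ ι : V ≃ₗ[ℤ] V, tvE d (0, 0, 1) (0, k, 0) hz (hw k) * g * f = ι →
      (ι ∈ Subgroup.closure (gens d) ∨
        (ι (1, 0, -1) = (1, 0, -1) ∧ ι (0, 1, 0) = -(0, 1, 0)) ∨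
        (ι (1, 0, -1) = -(1, 0, -1) ∧ ι (0, 1, 0) = (0, 1, 0))) →
      f ∈ Subgroup.closure (gens d) := by
    intro k ι hι h
    have hk := Subgroup.mul_mem _ (tvE_mem d (0, 0, 1) (0, k, 0) hz (hw k)) hg
    have hfι : f = (tvE d (0, 0, 1) (0, k, 0) hz (hw k) * g)⁻¹ * ι := by
      rw [← hι]; group
    rcases h with h | h
    · rw [hfι]; exact Subgroup.mul_mem _ (Subgroup.inv_mem _ hk) h
    · exfalso
      have := gram_mul_left hd (Subgroup.inv_mem _ hk) h
      rw [← hfι] at this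
      linarith
  have hgD := (mat_of_closure hg).disc.mul hD
  have hgI := (closure_isom hg).mul hf
  have e13 := hgI (1, 0, 0) (0, 0, 1)
  have e11 := hgI (1, 0, 0) (1, 0, 0)
  rw [LinearEquiv.mul_apply g f (0, 0, 1)] at e13
  -- the element after the shift
  have fin : ∀ (k ε : ℤ), ε = 1 ∨ ε = -1 → g (f (0, 0, 1)) = (0, 0, ε) →
      (g * f) (1, 0, 0) = (ε, k * ε, d * k ^ 2 * ε) → f ∈ Subgroup.closure (gens d) := by
    intro k ε hε h3 h1
    obtain ⟨T, hT⟩ : ∃ T, T = tvE d (0, 0, 1) (0, k, 0) hz (hw k) := ⟨_, rfl⟩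
    obtain ⟨ι, hι⟩ : ∃ ι, ι = T * g * f := ⟨_, rfl⟩
    have hTm : T ∈ Subgroup.closure (gens d) := by
      rw [hT]; exact tvE_mem d (0, 0, 1) (0, k, 0) hz (hw k)
    have ha : ι = T * (g * f) := by rw [hι, mul_assoc]
    have hιD : Disc d ι := by rw [ha]; exact (mat_of_closure hTm).disc.mul hgD
    have hιI : Isom d ι := by rw [ha]; exact (closure_isom hTm).mul hgI
    have hTv : ∀ v, T v = tv d (0, 0, 1) (0, k, 0) v := fun v => by rw [hT]; rfl
    have i3 : ι (0, 0, 1) = (0, 0, ε) := by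
      rw [ha, LinearEquiv.mul_apply, LinearEquiv.mul_apply, h3, hTv]
      simp [tv, pr, qd]
    have i1 : ι (1, 0, 0) = (ε, 0, 0) := by
      rw [ha, LinearEquiv.mul_apply, h1, hTv]
      simp only [tv, pr, qd, Prod.smul_mk, smul_eq_mul, Prod.mk_add_mk, Prod.mk_sub_mk,
        Prod.mk.injEq]
      refine ⟨by ring, by ring, by ring⟩
    obtain ⟨a, b, c, h2⟩ := hιD
    have e21 := hιI (0, 1, 0) (1, 0, 0)
    have e23 := hιI (0, 1, 0) (0, 0, 1)
    have e22 := hιI (0, 1, 0) (0, 1, 0)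
    rw [h2, i1] at e21
    rw [h2, i3] at e23
    rw [h2] at e22
    simp only [pr] at e21 e22 e23
    have hd0 : d ≠ 0 := hd.ne'
    have hε0 : ε ≠ 0 := by rcases hε with h | h <;> rw [h] <;> norm_num
    have hc0 : c = 0 := by
      have : (ε * (2 * d)) * c = 0 := by nlinarith [e21]
      rcases mul_eq_zero.mp this with h | h
      · exact absurd h (mul_ne_zero hε0 (by positivity))
      · exact h
    have ha0 : a = 0 := by
      have : (ε * (2 * d)) * a = 0 := by nlinarith [e23]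
      rcases mul_eq_zero.mp this with h | h
      · exact absurd h (mul_ne_zero hε0 (by positivity))
      · exact h
    subst hc0 ha0
    have hb := norm_eq hd (b := b) (by linarith)
    have i13 : ι (1, 0, -1) = (ε, 0, -ε) := by
      have : ((1, 0, -1) : V) = (1, 0, 0) - (0, 0, 1) := by simp
      rw [this, map_sub, i1, i3]; simp
    apply key k ι (by rw [hι, hT])
    rcases hb with hb | ⟨hd1, hb⟩
    · subst hb
      rcases hε with hε | hε
      · left
        have : ι = 1 := ext_basis (by rw [i1, hε]; rfl) (by rw [h2]; simp)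
          (by rw [i3, hε]; rfl)
        rw [this]; exact Subgroup.one_mem _
      · right; right
        refine ⟨by rw [i13, hε]; rfl, by rw [h2]; simp⟩
    · subst hb
      subst hd1
      rcases hε with hε | hε
      · right; left
        refine ⟨by rw [i13, hε], by rw [h2]; rfl⟩
      · left
        obtain ⟨m, hm, hmv⟩ := neg_mem_one
        have : ι = m := ext_basis (by rw [i1, hε, hmv]; rfl) (by rw [h2, hmv]; rfl)
          (by rw [i3, hε, hmv]; rfl)
        rw [this]; exact hm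
  rcases hgf with h3 | h3
  · rw [h3] at e13
    generalize hu : (g * f) (1, 0, 0) = u at *
    obtain ⟨r, l, s⟩ := u
    simp only [pr] at e13 e11
    have hr : r = 1 := by linarith
    subst hr
    refine fin l 1 (Or.inl rfl) h3 ?_
    simp only [Prod.mk.injEq]
    refine ⟨trivial, by ring, by nlinarith [e11]⟩
  · rw [h3] at e13
    generalize hu : (g * f) (1, 0, 0) = u at *
    obtain ⟨r, l, s⟩ := u
    simp only [pr] at e13 e11
    have hr : r = -1 := by linarith
    subst hr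
    refine fin (-l) (-1) (Or.inr rfl) h3 ?_
    simp only [Prod.mk.injEq]
    refine ⟨trivial, by ring, by nlinarith [e11]⟩

end Pool.Agent.K3Aut
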