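import Pool.Agent.K3Aut.Basic

set_option linter.unusedSimpArgs false

namespace Pool.Agent.K3Aut

theorem tv_eq (d : ℤ) (z w v : V) (hz : pr d z z = 0) (hw : pr d z w = 0) :
    (1 + (d * z.2.1 * w.2.1 - z.1 * w.2.2)) * (1 - (d * z.2.1 * w.2.1 - z.1 * w.2.2)) -
      d * (z.2.1 * w.2.2 - z.2.2 * w.2.1) * (z.2.1 * w.1 - z.1 * w.2.1) = 1 ∧
    tv d z w v = F1 d (1 + (d * z.2.1 * w.2.1 - z.1 * w.2.2)) (z.2.1 * w.2.2 - z.2.2 * w.2.1)
      (z.2.1 * w.1 - z.1 * w.2.1) (1 - (d * z.2.1 * w.2.1 - z.1 * w.2.2)) v := by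
  obtain ⟨z1, z2, z3⟩ := z
  obtain ⟨w1, w2, w3⟩ := w
  obtain ⟨r, l, s⟩ := v
  simp only [pr] at hz hw
  have h1 : d * z2 ^ 2 = z1 * z3 := by linarith [hz, sq z2]
  have h2 : 2 * d * z2 * w2 = z1 * w3 + w1 * z3 := by linarith
  refine ⟨?_, ?_⟩
  · dsimp only
    grind
  · simp only [tv, F1, pr, qd, Prod.mk.injEq, Prod.fst_add, Prod.snd_add, Prod.fst_sub,
      Prod.snd_sub, Prod.smul_fst, Prod.smul_snd, smul_eq_mul, Prod.mk_add_mk, Prod.mk_sub_mk,
      Prod.smul_mk]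
    refine ⟨?_, ?_, ?_⟩
    · grind
    · grind
    · grind

theorem rf_eq (d : ℤ) (δ v : V) (h : pr d δ δ = -2) :
    d * δ.2.1 * (-δ.2.1) - (-δ.2.2) * δ.1 = 1 ∧
    rf d δ v = F2 d δ.2.1 (-δ.2.2) δ.1 (-δ.2.1) v := by
  obtain ⟨z1, z2, z3⟩ := δ
  obtain ⟨r, l, s⟩ := v
  simp only [pr] at h
  have h1 : z1 * z3 = 1 + d * z2 ^ 2 := by linarith [h, sq z2]
  refine ⟨?_, ?_⟩
  · dsimp only
    grind
  · simp only [rf, F2, pr, Prod.mk.injEq, Prod.smul_mk, smul_eq_mul, Prod.mk_add_mk]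
    refine ⟨?_, ?_, ?_⟩
    · grind
    · grind
    · grind

theorem pr_add_left (d : ℤ) (u v w : V) : pr d (u + v) w = pr d u w + pr d v w := by
  simp only [pr, Prod.fst_add, Prod.snd_add]; ring

theorem pr_smul_left (d k : ℤ) (v w : V) : pr d (k • v) w = k * pr d v w := by
  simp only [pr, Prod.smul_fst, Prod.smul_snd, smul_eq_mul]; ring

theorem pr_comm (d : ℤ) (v w : V) : pr d v w = pr d w v := by
  simp only [pr]; ring

theorem rf_add (d : ℤ) (δ u v : V) : rf d δ (u + v) = rf d δ u + rf d δ v := by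
  simp only [rf, pr_add_left, add_smul]; abel

theorem rf_smul (d k : ℤ) (δ v : V) : rf d δ (k • v) = k • rf d δ v := by
  simp only [rf, pr_smul_left, smul_add, mul_smul]

theorem tv_add (d : ℤ) (z w u v : V) : tv d z w (u + v) = tv d z w u + tv d z w v := by
  simp only [tv, pr_comm d z, pr_comm d w, pr_add_left, add_smul, mul_add]; abel

theorem tv_smul (d k : ℤ) (z w v : V) : tv d z w (k • v) = k • tv d z w v := by
  have e : qd d w * (k * pr d v z) = k * (qd d w * pr d v z) := by ring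
  simp only [tv, pr_comm d z, pr_comm d w, pr_smul_left, e, mul_smul, smul_add, smul_sub]

theorem rf_rf (d : ℤ) (δ v : V) (h : pr d δ δ = -2) : rf d δ (rf d δ v) = v := by
  have h2 : pr d (rf d δ v) δ = - pr d v δ := by
    simp only [rf, pr_add_left, pr_smul_left, h]; ring
  conv_lhs => rw [rf, h2]
  rw [rf, neg_smul, add_assoc, add_neg_cancel, add_zero]

theorem tv_tv (d : ℤ) (z w v : V) (hz : pr d z z = 0) (hw : pr d z w = 0) :
    tv d z w (tv d z (-w) v) = v := by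
  have hw' : pr d z (-w) = 0 := by
    have : pr d z (-w) = - pr d z w := by
      simp only [pr, Prod.fst_neg, Prod.snd_neg]; ring
    rw [this, hw, neg_zero]
  obtain ⟨e1, e2⟩ := tv_eq d z (-w) v hz hw'
  obtain ⟨e3, e4⟩ := tv_eq d z w (F1 d (1 + (d * z.2.1 * (-w).2.1 - z.1 * (-w).2.2))
    (z.2.1 * (-w).2.2 - z.2.2 * (-w).2.1)
      (z.2.1 * (-w).1 - z.1 * (-w).2.1) (1 - (d * z.2.1 * (-w).2.1 - z.1 * (-w).2.2)) v) hz hw
  rw [e2, e4, F1_F1]
  simp only [Prod.fst_neg, Prod.snd_neg] at *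
  have h1 : (1 + (d * z.2.1 * w.2.1 - z.1 * w.2.2)) * (1 + (d * z.2.1 * -w.2.1 - z.1 * -w.2.2)) +
      d * (z.2.1 * w.2.2 - z.2.2 * w.2.1) * (z.2.1 * -w.1 - z.1 * -w.2.1) = 1 := by
    linear_combination e3
  have h2 : (1 + (d * z.2.1 * w.2.1 - z.1 * w.2.2)) * (z.2.1 * -w.2.2 - z.2.2 * -w.2.1) +
      (z.2.1 * w.2.2 - z.2.2 * w.2.1) * (1 - (d * z.2.1 * -w.2.1 - z.1 * -w.2.2)) = 0 := by
    ring
  have h3 : (z.2.1 * w.1 - z.1 * w.2.1) * (1 + (d * z.2.1 * -w.2.1 - z.1 * -w.2.2)) +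
      (1 - (d * z.2.1 * w.2.1 - z.1 * w.2.2)) * (z.2.1 * -w.1 - z.1 * -w.2.1) = 0 := by
    ring
  have h4 : d * (z.2.1 * w.1 - z.1 * w.2.1) * (z.2.1 * -w.2.2 - z.2.2 * -w.2.1) +
      (1 - (d * z.2.1 * w.2.1 - z.1 * w.2.2)) * (1 - (d * z.2.1 * -w.2.1 - z.1 * -w.2.2)) = 1 := by
    linear_combination e3
  rw [h1, h2, h3, h4, F1_one]

/-- the reflection as an automorphism -/
def rfE (d : ℤ) (δ : V) (h : pr d δ δ = -2) : V ≃ₗ[ℤ] V where
  toFun := rf d δ
  invFun := rf d δ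
  map_add' := rf_add d δ
  map_smul' := fun k v => rf_smul d k δ v
  left_inv := fun v => rf_rf d δ v h
  right_inv := fun v => rf_rf d δ v h

/-- the transvection as an automorphism -/
def tvE (d : ℤ) (z w : V) (hz : pr d z z = 0) (hw : pr d z w = 0) : V ≃ₗ[ℤ] V where
  toFun := tv d z w
  invFun := tv d z (-w)
  map_add' := tv_add d z w
  map_smul' := fun k v => tv_smul d k z w v
  left_inv := fun v => by
    have hw' : pr d z (-w) = 0 := by
      have : pr d z (-w) = - pr d z w := by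
        simp only [pr, Prod.fst_neg, Prod.snd_neg]; ring
      rw [this, hw, neg_zero]
    have := tv_tv d z (-w) v hz hw'
    rwa [neg_neg] at this
  right_inv := fun v => tv_tv d z w v hz hw

theorem rfE_apply (d : ℤ) (δ : V) (h : pr d δ δ = -2) (v : V) : rfE d δ h v = rf d δ v := rfl

theorem tvE_apply (d : ℤ) (z w : V) (hz : pr d z z = 0) (hw : pr d z w = 0) (v : V) :
    tvE d z w hz hw v = tv d z w v := rfl

theorem rfE_mem (d : ℤ) (δ : V) (h : pr d δ δ = -2) :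
    rfE d δ h ∈ Subgroup.closure (gens d) :=
  Subgroup.subset_closure (Or.inl ⟨δ, h, fun _ => rfl⟩)

theorem tvE_mem (d : ℤ) (z w : V) (hz : pr d z z = 0) (hw : pr d z w = 0) :
    tvE d z w hz hw ∈ Subgroup.closure (gens d) :=
  Subgroup.subset_closure (Or.inr ⟨z, w, hz, hw, fun _ => rfl⟩)

theorem mat_of_gens {d : ℤ} {f : V ≃ₗ[ℤ] V} (hf : f ∈ gens d) : Mat d f := by
  rcases hf with ⟨δ, h, hf⟩ | ⟨z, w, hz, hw, hf⟩
  · right
    exact ⟨_, _, _, _, (rf_eq d δ 0 h).1, fun v => by rw [hf, (rf_eq d δ v h).2]⟩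
  · left
    exact ⟨_, _, _, _, (tv_eq d z w 0 hz hw).1, fun v => by rw [hf, (tv_eq d z w v hz hw).2]⟩

theorem mat_of_closure {d : ℤ} {f : V ≃ₗ[ℤ] V} (hf : f ∈ Subgroup.closure (gens d)) :
    Mat d f := by
  induction hf using Subgroup.closure_induction with
  | mem x hx => exact mat_of_gens hx
  | one => exact Mat.one d
  | mul x y _ _ hx hy => exact hx.mul hy
  | inv x _ hx => exact hx.inv

/-- `f` is the identity on `2d L* / 2d L` -/
def Disc (d : ℤ) (f : V ≃ₗ[ℤ] V) : Prop :=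
  ∃ a b c : ℤ, f (0, 1, 0) = (2 * d * a, 1 + 2 * d * b, 2 * d * c)

/-- the Gram determinant on the reference plane -/
def gram (d : ℤ) (f : V ≃ₗ[ℤ] V) : ℤ :=
  pr d (f (1, 0, -1)) (1, 0, -1) * pr d (f (0, 1, 0)) (0, 1, 0) -
    pr d (f (1, 0, -1)) (0, 1, 0) * pr d (f (0, 1, 0)) (1, 0, -1)

theorem Mat.disc {d : ℤ} {f : V ≃ₗ[ℤ] V} (hf : Mat d f) : Disc d f := by
  rcases hf with ⟨a, b, c, e, h1, hf⟩ | ⟨a, b, c, e, h1, hf⟩
  · refine ⟨c * e, b * c, a * b, ?_⟩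
    rw [hf]
    simp only [F1, Prod.mk.injEq]
    refine ⟨by ring, by linear_combination h1, by ring⟩
  · refine ⟨-(c * e), -(a * e), -(a * b), ?_⟩
    rw [hf]
    simp only [F2, Prod.mk.injEq]
    refine ⟨by ring, by linear_combination h1, by ring⟩

theorem Mat.gram_pos {d : ℤ} (hd : 0 < d) {f : V ≃ₗ[ℤ] V} (hf : Mat d f) : 0 < gram d f := by
  rcases hf with ⟨a, b, c, e, h1, hf⟩ | ⟨a, b, c, e, h1, hf⟩
  · have : gram d f = 2 * d * ((a ^ 2 + e ^ 2 + d * (b ^ 2 + c ^ 2)) * (a * e - d * b * c)) := by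
      simp only [gram, hf, F1, pr]; ring
    rw [this, h1]
    have : 0 < a ^ 2 + e ^ 2 + d * (b ^ 2 + c ^ 2) := by
      have ha : a ≠ 0 ∨ b ≠ 0 := by
        by_contra hcon
        push Not at hcon
        rw [hcon.1, hcon.2] at h1
        simp at h1
      rcases ha with ha | hb
      · have := pow_pos (abs_pos.mpr ha) 2
        rw [sq_abs] at this
        nlinarith [sq_nonneg e, sq_nonneg b, sq_nonneg c, mul_nonneg hd.le (sq_nonneg b),
          mul_nonneg hd.le (sq_nonneg c)]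
      · have := pow_pos (abs_pos.mpr hb) 2
        rw [sq_abs] at this
        nlinarith [sq_nonneg e, sq_nonneg a, sq_nonneg c, mul_pos hd this,
          mul_nonneg hd.le (sq_nonneg c)]
    positivity
  · have : gram d f = 2 * d * ((d * (a ^ 2 + e ^ 2) + (b ^ 2 + c ^ 2)) * (d * a * e - b * c)) := by
      simp only [gram, hf, F2, pr]; ring
    rw [this, h1]
    have : 0 < d * (a ^ 2 + e ^ 2) + (b ^ 2 + c ^ 2) := by
      have ha : a ≠ 0 ∨ b ≠ 0 := by
        by_contra hcon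
        push Not at hcon
        rw [hcon.1, hcon.2] at h1
        simp at h1
      rcases ha with ha | hb
      · have := pow_pos (abs_pos.mpr ha) 2
        rw [sq_abs] at this
        nlinarith [sq_nonneg e, sq_nonneg b, sq_nonneg c, mul_pos hd this,
          mul_nonneg hd.le (sq_nonneg e)]
      · have := pow_pos (abs_pos.mpr hb) 2
        rw [sq_abs] at this
        nlinarith [sq_nonneg e, sq_nonneg a, sq_nonneg c, mul_nonneg hd.le (sq_nonneg a),
          mul_nonneg hd.le (sq_nonneg e)]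
    positivity

end Pool.Agent.K3Aut
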