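import Pool.Agent.K3Aut.Cert

set_option linter.unusedSimpArgs false

namespace Pool.Agent.K3Aut

variable {Λ : Type*} [AddCommGroup Λ]

/-- reflection in a `(-2)`-vector of `K` -/
def IsRefl (B : LinearMap.BilinForm ℤ Λ) (K : Submodule ℤ Λ) (g : Λ ≃ₗ[ℤ] Λ) : Prop :=
  ∃ δ ∈ K, B δ δ = -2 ∧ ∀ x, g x = x + B x δ • δ

/-- Eichler transvection of an isotropic vector `z` and an orthogonal vector `w` in `K` -/
def IsTransv (B : LinearMap.BilinForm ℤ Λ) (K : Submodule ℤ Λ) (g : Λ ≃ₗ[ℤ] Λ) : Prop :=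
  ∃ z ∈ K, ∃ w ∈ K, ∃ m : ℤ, B z z = 0 ∧ B z w = 0 ∧ B w w = 2 * m ∧
    ∀ x, g x = x + B z x • w - B w x • z - (m * B z x) • z

/-- the geometric situation -/
structure Sit (B : LinearMap.BilinForm ℤ Λ) (e f h x₀ : Λ) (d : ℤ) : Prop where
  symm : ∀ x y, B x y = B y x
  nondeg : ∀ x, (∀ y, B x y = 0) → x = 0
  ee : B e e = 0
  ff : B f f = 0
  ef : B e f = -1
  eh : B e h = 0
  fh : B f h = 0
  hh : B h h = 2 * d
  hx : B h x₀ = 1

/-- the embedding -/
def φ (e f h : Λ) : V →ₗ[ℤ] Λ where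
  toFun v := v.1 • e + v.2.1 • h + v.2.2 • f
  map_add' u v := by
    simp only [Prod.fst_add, Prod.snd_add, add_smul]; abel
  map_smul' k v := by
    simp only [Prod.smul_fst, Prod.smul_snd, smul_eq_mul, mul_smul, smul_add, RingHom.id_apply]

theorem φ_apply (e f h : Λ) (v : V) : φ e f h v = v.1 • e + v.2.1 • h + v.2.2 • f := rfl

theorem φ_range (e f h : Λ) : LinearMap.range (φ e f h) = Submodule.span ℤ {e, f, h} := by
  apply le_antisymm
  · rintro _ ⟨v, rfl⟩
    rw [φ_apply]
    refine Submodule.add_mem _ (Submodule.add_mem _ ?_ ?_) ?_ <;>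
      exact Submodule.smul_mem _ _ (Submodule.subset_span (by simp))
  · rw [Submodule.span_le]
    intro x hx
    rcases hx with rfl | rfl | rfl
    · exact ⟨(1, 0, 0), by simp [φ_apply]⟩
    · exact ⟨(0, 0, 1), by simp [φ_apply]⟩
    · exact ⟨(0, 1, 0), by simp [φ_apply]⟩

section
variable {B : LinearMap.BilinForm ℤ Λ} {e f h x₀ : Λ} {d : ℤ}

/-- the orthogonal complement -/
def IsT (B : LinearMap.BilinForm ℤ Λ) (e f h t : Λ) : Prop := B e t = 0 ∧ B f t = 0 ∧ B h t = 0

theorem Sit.fe (S : Sit B e f h x₀ d) : B f e = -1 := by rw [S.symm, S.ef]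
theorem Sit.he (S : Sit B e f h x₀ d) : B h e = 0 := by rw [S.symm, S.eh]
theorem Sit.hf (S : Sit B e f h x₀ d) : B h f = 0 := by rw [S.symm, S.fh]

theorem Sit.pr_eq (S : Sit B e f h x₀ d) (v w : V) :
    B (φ e f h v) (φ e f h w) = pr d v w := by
  simp only [φ_apply, map_add, map_smul, LinearMap.add_apply, LinearMap.smul_apply, smul_eq_mul,
    S.ee, S.ff, S.ef, S.eh, S.fh, S.hh, S.fe, S.he, S.hf, pr]
  ring

/-- correction of `x₀` -/
def x1 (B : LinearMap.BilinForm ℤ Λ) (e f x₀ : Λ) : Λ := x₀ + B f x₀ • e + B e x₀ • f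

theorem Sit.hx1 (S : Sit B e f h x₀ d) : B h (x1 B e f x₀) = 1 := by
  simp only [x1, map_add, map_smul, smul_eq_mul, S.hx, S.he, S.hf]; ring

theorem Sit.ex1 (S : Sit B e f h x₀ d) : B e (x1 B e f x₀) = 0 := by
  simp only [x1, map_add, map_smul, smul_eq_mul, S.ee, S.ef]; ring

theorem Sit.fx1 (S : Sit B e f h x₀ d) : B f (x1 B e f x₀) = 0 := by
  simp only [x1, map_add, map_smul, smul_eq_mul, S.ff, S.fe]; ring

/-- the left inverse -/
def ψ (B : LinearMap.BilinForm ℤ Λ) (e f x₀ : Λ) : Λ →ₗ[ℤ] V where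
  toFun y := (-(B f y), B (x1 B e f x₀) y, -(B e y))
  map_add' u v := by
    simp only [map_add, Prod.mk_add_mk, Prod.mk.injEq]
    refine ⟨by ring, trivial, by ring⟩
  map_smul' k v := by
    simp only [map_smul, smul_eq_mul, Prod.smul_mk, Prod.mk.injEq, RingHom.id_apply]
    refine ⟨by ring, trivial, by ring⟩

theorem ψ_apply (y : Λ) : ψ B e f x₀ y = (-(B f y), B (x1 B e f x₀) y, -(B e y)) := rfl

theorem Sit.ψφ (S : Sit B e f h x₀ d) (v : V) : ψ B e f x₀ (φ e f h v) = v := by
  obtain ⟨r, l, s⟩ := v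
  have h1 : B (x1 B e f x₀) e = 0 := by rw [S.symm, S.ex1]
  have h2 : B (x1 B e f x₀) f = 0 := by rw [S.symm, S.fx1]
  have h3 : B (x1 B e f x₀) h = 1 := by rw [S.symm, S.hx1]
  rw [ψ_apply, φ_apply]
  simp only [map_add, map_smul, smul_eq_mul, S.ee, S.ff, S.ef, S.eh, S.fh, S.fe, h1, h2, h3,
    Prod.mk.injEq]
  refine ⟨by ring, by ring, by ring⟩

theorem Sit.φψ (S : Sit B e f h x₀ d) (y : Λ) (hy : ∀ t, IsT B e f h t → B y t = 0) :
    φ e f h (ψ B e f x₀ y) = y := by
  rw [← sub_eq_zero]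
  apply S.nondeg
  intro t
  have key := hy (t + B f t • e + B e t • f - B h t • x1 B e f x₀) (by
    refine ⟨?_, ?_, ?_⟩
    · simp only [map_add, map_sub, map_smul, smul_eq_mul, S.ee, S.ef, S.ex1]; ring
    · simp only [map_add, map_sub, map_smul, smul_eq_mul, S.ff, S.fe, S.fx1]; ring
    · simp only [map_add, map_sub, map_smul, smul_eq_mul, S.he, S.hf, S.hx1]; ring)
  simp only [map_add, map_sub, map_smul, smul_eq_mul] at key
  rw [S.symm (φ e f h (ψ B e f x₀ y) - y) t, map_sub, φ_apply, ψ_apply]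
  simp only [map_add, map_smul, smul_eq_mul]
  rw [S.symm t e, S.symm t f, S.symm t h, S.symm t y, S.symm (x1 B e f x₀) y]
  rw [S.symm y e, S.symm y f] at key
  linear_combination (-1) * key

theorem Sit.torsion (S : Sit B e f h x₀ d) (hd : 0 < d) (y : Λ) (hy : (2 * d) • y = 0) :
    y = 0 := by
  apply S.nondeg
  intro z
  have h1 : B ((2 * d) • y) z = 0 := by rw [hy]; simp
  rw [map_smul, LinearMap.smul_apply, smul_eq_mul] at h1
  rcases mul_eq_zero.mp h1 with h | h
  · omega
  · exact h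

/-- two maps which agree on `K` and `T` agree -/
theorem Sit.ext (S : Sit B e f h x₀ d) (hd : 0 < d) {g k : Λ ≃ₗ[ℤ] Λ}
    (h1 : ∀ v, g (φ e f h v) = k (φ e f h v)) (h2 : ∀ t, IsT B e f h t → g t = k t) : g = k := by
  ext1 x
  rw [← sub_eq_zero]
  apply S.torsion hd
  obtain ⟨v, hv⟩ : ∃ v : V, v = (-(2 * d * B f x), B h x, -(2 * d * B e x)) := ⟨_, rfl⟩
  obtain ⟨t, ht⟩ : ∃ t, t = (2 * d) • x - φ e f h v := ⟨_, rfl⟩
  have hT : IsT B e f h t := by
    rw [ht, hv, φ_apply]
    refine ⟨?_, ?_, ?_⟩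
    · simp only [map_sub, map_add, map_smul, smul_eq_mul, S.ee, S.eh, S.ef]; ring
    · simp only [map_sub, map_add, map_smul, smul_eq_mul, S.ff, S.fh, S.fe]; ring
    · simp only [map_sub, map_add, map_smul, smul_eq_mul, S.he, S.hh, S.hf]; ring
  have hx : (2 * d) • x = t + φ e f h v := by rw [ht]; abel
  rw [smul_sub, ← map_smul, ← map_smul, hx, map_add, map_add, h1, h2 t hT, sub_self]

/-- generators -/
def gensΛ (B : LinearMap.BilinForm ℤ Λ) (K : Submodule ℤ Λ) : Set (Λ ≃ₗ[ℤ] Λ) :=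
  {g | IsRefl B K g ∨ IsTransv B K g}

/-- the group of the question -/
def Good (B : LinearMap.BilinForm ℤ Λ) (e f h : Λ) (g : Λ ≃ₗ[ℤ] Λ) : Prop :=
  (∀ x y, B (g x) (g y) = B x y) ∧ (∀ t, IsT B e f h t → g t = t)

theorem Good.mul {g k : Λ ≃ₗ[ℤ] Λ} (hg : Good B e f h g) (hk : Good B e f h k) :
    Good B e f h (g * k) :=
  ⟨fun x y => by rw [LinearEquiv.mul_apply, LinearEquiv.mul_apply, hg.1, hk.1],
   fun t ht => by rw [LinearEquiv.mul_apply, hk.2 t ht, hg.2 t ht]⟩

theorem Good.inv {g : Λ ≃ₗ[ℤ] Λ} (hg : Good B e f h g) : Good B e f h g⁻¹ := by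
  refine ⟨fun x y => ?_, fun t ht => ?_⟩
  · have h1 : g (g⁻¹ x) = x := g.apply_symm_apply x
    have h2 : g (g⁻¹ y) = y := g.apply_symm_apply y
    rw [← hg.1, h1, h2]
  · have h1 : g (g⁻¹ t) = t := g.apply_symm_apply t
    apply g.injective
    rw [h1, hg.2 t ht]

theorem Sit.good_sub (S : Sit B e f h x₀ d) {g : Λ ≃ₗ[ℤ] Λ} (hg : Good B e f h g) (x : Λ) :
    φ e f h (ψ B e f x₀ (g x - x)) = g x - x := by
  apply S.φψ
  intro t ht
  rw [map_sub, LinearMap.sub_apply, ← hg.1 x t, hg.2 t ht, sub_self]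

theorem Sit.good_φ (S : Sit B e f h x₀ d) {g : Λ ≃ₗ[ℤ] Λ} (hg : Good B e f h g) (v : V) :
    φ e f h (ψ B e f x₀ (g (φ e f h v))) = g (φ e f h v) := by
  have h1 := S.good_sub hg (φ e f h v)
  rw [map_sub, map_sub, S.ψφ] at h1
  exact sub_left_injective h1

/-- restriction to `K` -/
def Sit.res (S : Sit B e f h x₀ d) {g : Λ ≃ₗ[ℤ] Λ} (hg : Good B e f h g) : V ≃ₗ[ℤ] V where
  toFun v := ψ B e f x₀ (g (φ e f h v))
  invFun v := ψ B e f x₀ (g⁻¹ (φ e f h v))
  map_add' u v := by simp only [map_add]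
  map_smul' k v := by simp only [map_smul, RingHom.id_apply]
  left_inv v := by
    show ψ B e f x₀ (g⁻¹ (φ e f h (ψ B e f x₀ (g (φ e f h v))))) = v
    rw [S.good_φ hg]
    have : g⁻¹ (g (φ e f h v)) = φ e f h v := g.symm_apply_apply _
    rw [this, S.ψφ]
  right_inv v := by
    show ψ B e f x₀ (g (φ e f h (ψ B e f x₀ (g⁻¹ (φ e f h v))))) = v
    rw [S.good_φ hg.inv]
    have : g (g⁻¹ (φ e f h v)) = φ e f h v := g.apply_symm_apply _
    rw [this, S.ψφ]

theorem Sit.res_φ (S : Sit B e f h x₀ d) {g : Λ ≃ₗ[ℤ] Λ} (hg : Good B e f h g) (v : V) :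
    φ e f h (S.res hg v) = g (φ e f h v) := S.good_φ hg v

theorem Sit.res_isom (S : Sit B e f h x₀ d) {g : Λ ≃ₗ[ℤ] Λ} (hg : Good B e f h g) :
    Isom d (S.res hg) := by
  intro v w
  rw [← S.pr_eq, ← S.pr_eq, S.res_φ, S.res_φ, hg.1]

theorem Sit.res_disc (S : Sit B e f h x₀ d) {g : Λ ≃ₗ[ℤ] Λ} (hg : Good B e f h g) :
    Disc d (S.res hg) := by
  obtain ⟨u, hu⟩ : ∃ u : V, u = ψ B e f x₀ (g (x1 B e f x₀) - x1 B e f x₀) := ⟨_, rfl⟩
  have h1 : φ e f h u = g (x1 B e f x₀) - x1 B e f x₀ := by rw [hu]; exact S.good_sub hg _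
  have hT : IsT B e f h (h - (2 * d) • x1 B e f x₀) := by
    refine ⟨?_, ?_, ?_⟩
    · simp only [map_sub, map_smul, smul_eq_mul, S.eh, S.ex1]; ring
    · simp only [map_sub, map_smul, smul_eq_mul, S.fh, S.fx1]; ring
    · simp only [map_sub, map_smul, smul_eq_mul, S.hh, S.hx1]; ring
  have h2 := hg.2 _ hT
  rw [map_sub, map_smul] at h2
  have h3 : g h = h + (2 * d) • φ e f h u := by
    rw [h1, smul_sub, sub_eq_iff_eq_add.mp h2]; abel
  have h4 : φ e f h (0, 1, 0) = h := by simp [φ_apply]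
  refine ⟨u.1, u.2.1, u.2.2, ?_⟩
  have h5 : S.res hg (0, 1, 0) = (0, 1, 0) + (2 * d) • u := by
    show ψ B e f x₀ (g (φ e f h (0, 1, 0))) = _
    rw [h4, h3, map_add, map_smul, S.ψφ]
    conv_lhs => rw [← h4]
    rw [S.ψφ]
  rw [h5]
  obtain ⟨u1, u2, u3⟩ := u
  simp only [Prod.smul_mk, smul_eq_mul, Prod.mk_add_mk, zero_add]

/-- lifting of elements of the group generated on `V` -/
theorem Sit.lift (S : Sit B e f h x₀ d) {k : V ≃ₗ[ℤ] V} (hk : k ∈ Subgroup.closure (gens d)) :
    ∃ g ∈ Subgroup.closure (gensΛ B (Submodule.span ℤ {e, f, h})),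
      Good B e f h g ∧ ∀ v, g (φ e f h v) = φ e f h (k v) := by
  induction hk using Subgroup.closure_induction with
  | one => 
    exact ⟨1, Subgroup.one_mem _, ⟨fun x y => rfl, fun t _ => rfl⟩, fun v => rfl⟩
  | mul a b _ _ ha hb =>
    obtain ⟨g, hg, hgG, hgv⟩ := ha
    obtain ⟨g', hg', hgG', hgv'⟩ := hb
    exact ⟨g * g', Subgroup.mul_mem _ hg hg', hgG.mul hgG', fun v => by
      rw [LinearEquiv.mul_apply, hgv', hgv, LinearEquiv.mul_apply]⟩
  | inv a _ ha =>
    obtain ⟨g, hg, hgG, hgv⟩ := ha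
    refine ⟨g⁻¹, Subgroup.inv_mem _ hg, hgG.inv, fun v => ?_⟩
    apply g.injective
    have h1 : g (g⁻¹ (φ e f h v)) = φ e f h v := g.apply_symm_apply _
    have h2 : a (a⁻¹ v) = v := a.apply_symm_apply _
    rw [h1, hgv, h2]
  | mem k hk =>
    rcases hk with ⟨δ, hδ, hkv⟩ | ⟨z, w, hz, hw, hkv⟩
    · -- reflection
      have hδ' : B (φ e f h δ) (φ e f h δ) = -2 := by rw [S.pr_eq, hδ]
      let F : Λ →ₗ[ℤ] Λ :=
        { toFun := fun x => x + B x (φ e f h δ) • φ e f h δ
          map_add' := fun x y => by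
            simp only [map_add, LinearMap.add_apply, add_smul]; abel
          map_smul' := fun c x => by
            simp only [map_smul, LinearMap.smul_apply, smul_eq_mul, mul_smul, smul_add,
              RingHom.id_apply] }
      have hF : ∀ x, F x = x + B x (φ e f h δ) • φ e f h δ := fun x => rfl
      have hFF : ∀ x, F (F x) = x := by
        intro x
        rw [hF (F x), hF x]
        simp only [map_add, LinearMap.add_apply, map_smul, LinearMap.smul_apply, smul_eq_mul, hδ',
          add_smul, mul_smul]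
        have : (-2 : ℤ) • φ e f h δ = - φ e f h δ - φ e f h δ := by
          rw [neg_smul, two_smul]; abel
        rw [this, smul_sub, smul_neg]
        abel
      let g : Λ ≃ₗ[ℤ] Λ :=
        { F with
          invFun := F
          left_inv := hFF
          right_inv := hFF }
      have hg : ∀ x, g x = x + B x (φ e f h δ) • φ e f h δ := fun x => rfl
      refine ⟨g, Subgroup.subset_closure (Or.inl ⟨φ e f h δ, ?_, hδ', hg⟩), ⟨?_, ?_⟩, ?_⟩
      · rw [← φ_range]; exact ⟨δ, rfl⟩
      · intro x y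
        rw [hg, hg]
        simp only [map_add, LinearMap.add_apply, map_smul, LinearMap.smul_apply, smul_eq_mul, hδ']
        rw [S.symm (φ e f h δ) y]
        ring
      · intro t ht
        rw [hg, S.symm t, φ_apply]
        simp only [map_add, map_smul, LinearMap.add_apply, LinearMap.smul_apply, ht.1, ht.2.1,
          ht.2.2, smul_eq_mul, mul_zero, add_zero, zero_smul]
      · intro v
        rw [hg, hkv, S.pr_eq, rf, map_add, map_smul]
    · -- transvection
      have hz' : B (φ e f h z) (φ e f h z) = 0 := by rw [S.pr_eq, hz]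
      have hw' : B (φ e f h z) (φ e f h w) = 0 := by rw [S.pr_eq, hw]
      have hww : B (φ e f h w) (φ e f h w) = 2 * qd d w := by
        rw [S.pr_eq]; simp only [pr, qd]; ring
      have hw'' : B (φ e f h w) (φ e f h z) = 0 := by rw [S.symm, hw']
      let F : V → Λ →ₗ[ℤ] Λ := fun w' =>
        { toFun := fun x => x + B (φ e f h z) x • φ e f h w' - B (φ e f h w') x • φ e f h z -
            (qd d w' * B (φ e f h z) x) • φ e f h z
          map_add' := fun x y => by
            simp only [map_add, LinearMap.add_apply, add_smul, mul_add]; abel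
          map_smul' := fun c x => by
            have e : qd d w' * (c * B (φ e f h z) x) = c * (qd d w' * B (φ e f h z) x) := by ring
            simp only [map_smul, smul_eq_mul, e, mul_smul, smul_add, smul_sub,
              RingHom.id_apply] }
      have hF : ∀ w' x, F w' x = x + B (φ e f h z) x • φ e f h w' - B (φ e f h w') x • φ e f h z -
            (qd d w' * B (φ e f h z) x) • φ e f h z := fun w' x => rfl
      have hqn : qd d (-w) = qd d w := by
        simp only [qd, Prod.fst_neg, Prod.snd_neg]; ring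
      have hFF : ∀ x, F w (F (-w) x) = x := by
        intro x
        have a1 : B (φ e f h z) (F (-w) x) = B (φ e f h z) x := by
          rw [hF]
          simp only [map_add, map_sub, map_smul, map_neg, smul_eq_mul, hz', hw']; ring
        have a2 : B (φ e f h w) (F (-w) x) = B (φ e f h w) x - 2 * qd d w * B (φ e f h z) x := by
          rw [hF]
          simp only [map_add, map_sub, map_smul, map_neg, smul_eq_mul, hw'', hww]; ring
        rw [hF w, a1, a2, hF (-w), hqn, map_neg]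
        simp only [map_neg, LinearMap.neg_apply, smul_neg, neg_smul, sub_smul, mul_smul, two_smul,
          add_smul]
        have : (2 : ℤ) • (qd d w • B (φ e f h z) x • φ e f h z) =
          qd d w • B (φ e f h z) x • φ e f h z + qd d w • B (φ e f h z) x • φ e f h z := two_smul _ _
        abel
      have hFF' : ∀ x, F (-w) (F w x) = x := by
        intro x
        have a1 : B (φ e f h z) (F w x) = B (φ e f h z) x := by
          rw [hF]
          simp only [map_add, map_sub, map_smul, map_neg, smul_eq_mul, hz', hw']; ring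
        have a2 : B (φ e f h w) (F w x) = B (φ e f h w) x + 2 * qd d w * B (φ e f h z) x := by
          rw [hF]
          simp only [map_add, map_sub, map_smul, map_neg, smul_eq_mul, hw'', hww]; ring
        have a3 : B (φ e f h (-w)) (F w x) =
            -(B (φ e f h w) x + 2 * qd d w * B (φ e f h z) x) := by
          rw [map_neg, map_neg, LinearMap.neg_apply, a2]
        rw [hF (-w), a1, a3, hqn, map_neg, hF w]
        simp only [map_neg, LinearMap.neg_apply, smul_neg, neg_smul, sub_smul, mul_smul, two_smul,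
          add_smul]
        abel
      let g : Λ ≃ₗ[ℤ] Λ :=
        { F w with
          invFun := F (-w)
          left_inv := hFF'
          right_inv := hFF }
      have hg : ∀ x, g x = x + B (φ e f h z) x • φ e f h w - B (φ e f h w) x • φ e f h z -
            (qd d w * B (φ e f h z) x) • φ e f h z := fun x => rfl
      refine ⟨g, Subgroup.subset_closure (Or.inr ⟨φ e f h z, ?_, φ e f h w, ?_, qd d w, hz', hw',
        hww, hg⟩), ⟨?_, ?_⟩, ?_⟩
      · rw [← φ_range]; exact ⟨z, rfl⟩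
      · rw [← φ_range]; exact ⟨w, rfl⟩
      · intro x y
        rw [hg, hg]
        simp only [map_add, map_sub, LinearMap.add_apply, LinearMap.sub_apply, map_smul,
          LinearMap.smul_apply, smul_eq_mul, hz', hw', hw'', hww]
        rw [S.symm x (φ e f h z), S.symm x (φ e f h w)]
        ring
      · intro t ht
        rw [hg]
        have t1 : ∀ v, B (φ e f h v) t = 0 := by
          intro v
          rw [φ_apply]
          simp only [map_add, map_smul, LinearMap.add_apply, LinearMap.smul_apply, ht.1, ht.2.1,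
            ht.2.2, smul_eq_mul, mul_zero, add_zero]
        simp only [t1, mul_zero, zero_smul, add_zero, sub_zero]
      · intro v
        rw [hg, hkv, S.pr_eq, S.pr_eq, tv, map_sub, map_sub, map_add, map_smul, map_smul, map_smul]

/-- every element of the group generated on `Λ` restricts to one of the group on `V` -/
theorem Sit.descend (S : Sit B e f h x₀ d) {g : Λ ≃ₗ[ℤ] Λ}
    (hg : g ∈ Subgroup.closure (gensΛ B (Submodule.span ℤ {e, f, h}))) :
    Good B e f h g ∧ ∃ k ∈ Subgroup.closure (gens d), ∀ v, g (φ e f h v) = φ e f h (k v) := by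
  induction hg using Subgroup.closure_induction with
  | one => exact ⟨⟨fun x y => rfl, fun t _ => rfl⟩, 1, Subgroup.one_mem _, fun v => rfl⟩
  | mul a b _ _ ha hb =>
    obtain ⟨hgG, k, hk, hgv⟩ := ha
    obtain ⟨hgG', k', hk', hgv'⟩ := hb
    exact ⟨hgG.mul hgG', k * k', Subgroup.mul_mem _ hk hk', fun v => by
      rw [LinearEquiv.mul_apply, hgv', hgv, LinearEquiv.mul_apply]⟩
  | inv a _ ha =>
    obtain ⟨hgG, k, hk, hgv⟩ := ha
    refine ⟨hgG.inv, k⁻¹, Subgroup.inv_mem _ hk, fun v => ?_⟩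
    apply a.injective
    have h1 : a (a⁻¹ (φ e f h v)) = φ e f h v := a.apply_symm_apply _
    have h2 : k (k⁻¹ v) = v := k.apply_symm_apply _
    rw [h1, hgv, h2]
  | mem g hg =>
    rw [← φ_range] at hg
    rcases hg with ⟨_, ⟨δ, rfl⟩, hδ, hgv⟩ | ⟨_, ⟨z, rfl⟩, _, ⟨w, rfl⟩, m, hz, hw, hww, hgv⟩
    · have hδ' : pr d δ δ = -2 := by rw [← S.pr_eq, hδ]
      refine ⟨⟨?_, ?_⟩, rfE d δ hδ', rfE_mem d δ hδ', ?_⟩
      · intro x y
        rw [hgv, hgv]
        simp only [map_add, LinearMap.add_apply, map_smul, LinearMap.smul_apply, smul_eq_mul, hδ]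
        rw [S.symm (φ e f h δ) y]
        ring
      · intro t ht
        rw [hgv, S.symm t, φ_apply]
        simp only [map_add, map_smul, LinearMap.add_apply, LinearMap.smul_apply, ht.1, ht.2.1,
          ht.2.2, smul_eq_mul, mul_zero, add_zero, zero_smul]
      · intro v
        rw [hgv, rfE_apply, S.pr_eq, rf, map_add, map_smul]
    · have hz' : pr d z z = 0 := by rw [← S.pr_eq, hz]
      have hw' : pr d z w = 0 := by rw [← S.pr_eq, hw]
      have hw2 : B (φ e f h w) (φ e f h z) = 0 := by rw [S.symm, hw]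
      have hm : m = qd d w := by
        rw [S.pr_eq] at hww
        have : pr d w w = 2 * qd d w := by simp only [pr, qd]; ring
        rw [this] at hww
        linarith
      subst hm
      refine ⟨⟨?_, ?_⟩, tvE d z w hz' hw', tvE_mem d z w hz' hw', ?_⟩
      · intro x y
        rw [hgv, hgv]
        simp only [map_add, map_sub, LinearMap.add_apply, LinearMap.sub_apply, map_smul,
          LinearMap.smul_apply, smul_eq_mul, hz, hw, hw2, hww]
        rw [S.symm x (φ e f h z), S.symm x (φ e f h w)]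
        ring
      · intro t ht
        rw [hgv]
        have t1 : ∀ v, B (φ e f h v) t = 0 := by
          intro v
          rw [φ_apply]
          simp only [map_add, map_smul, LinearMap.add_apply, LinearMap.smul_apply, ht.1, ht.2.1,
            ht.2.2, smul_eq_mul, mul_zero, add_zero]
        simp only [t1, mul_zero, zero_smul, add_zero, sub_zero]
      · intro v
        rw [hgv, tvE_apply, S.pr_eq, S.pr_eq, tv, map_sub, map_sub, map_add, map_smul, map_smul,
          map_smul]

/-- orientation of the positive plane spanned by `e - f` and `h` -/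
def gramΛ (B : LinearMap.BilinForm ℤ Λ) (e f h : Λ) (g : Λ ≃ₗ[ℤ] Λ) : ℤ :=
  B (g (e - f)) (e - f) * B (g h) h - B (g (e - f)) h * B (g h) (e - f)

theorem Sit.gram_eq (S : Sit B e f h x₀ d) {g : Λ ≃ₗ[ℤ] Λ} {k : V ≃ₗ[ℤ] V}
    (hk : ∀ v, g (φ e f h v) = φ e f h (k v)) : gramΛ B e f h g = gram d k := by
  have e1 : φ e f h (1, 0, -1) = e - f := by simp [φ_apply, sub_eq_add_neg]
  have e2 : φ e f h (0, 1, 0) = h := by simp [φ_apply]
  have e3 : ∀ v w, B (g (φ e f h v)) (φ e f h w) = pr d (k v) w := fun v w => by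
    rw [hk, S.pr_eq]
  have a := e3 (1, 0, -1) (1, 0, -1)
  have b := e3 (1, 0, -1) (0, 1, 0)
  have c := e3 (0, 1, 0) (1, 0, -1)
  have r := e3 (0, 1, 0) (0, 1, 0)
  rw [e1] at a
  rw [e1, e2] at b
  rw [e1, e2] at c
  rw [e2] at r
  rw [gramΛ, gram, a, b, c, r]

/-- The main theorem. -/
theorem Sit.main (S : Sit B e f h x₀ d) (hd : d ∈ levels) (g : Λ ≃ₗ[ℤ] Λ) :
    (Good B e f h g ∧ 0 < gramΛ B e f h g) ↔
      g ∈ Subgroup.closure (gensΛ B (Submodule.span ℤ {e, f, h})) := by
  obtain ⟨hd0, L, hL⟩ := levels_ok hd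
  constructor
  · rintro ⟨hg, hG⟩
    have hk := mem_closure hd0 L hL (S.res hg) (S.res_isom hg) (S.res_disc hg) (by
      rw [← S.gram_eq (fun v => (S.res_φ hg v).symm)]; exact hG)
    obtain ⟨g', hg', hgG', hgv'⟩ := S.lift hk
    have : g = g' := S.ext hd0 (fun v => by rw [hgv', S.res_φ])
      (fun t ht => by rw [hg.2 t ht, hgG'.2 t ht])
    rw [this]; exact hg'
  · intro hg
    obtain ⟨hgG, k, hk, hkv⟩ := S.descend hg
    exact ⟨hgG, by rw [S.gram_eq hkv]; exact (mat_of_closure hk).gram_pos hd0⟩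

end

end Pool.Agent.K3Aut
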