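import Pool.Agent.K3Aut.Reduce

set_option linter.unusedSimpArgs false

namespace Pool.Agent.K3Aut

theorem Typ.neg {d : ℤ} {v : V} (h : Typ d v) : Typ d (-v) := by
  obtain ⟨h1, h2, h3⟩ := h
  refine ⟨?_, ?_, ?_⟩
  · simp only [Prod.fst_neg, Prod.snd_neg]; linear_combination h1
  · simp only [Prod.fst_neg, Prod.snd_neg]; exact h2.neg_neg
  · simp only [Prod.fst_neg, Prod.snd_neg, dvd_neg]; exact h3

theorem chain_step {d : ℤ} (hd : 0 < d) :
    ∀ (L : List Piece) (p q : ℤ), 0 < q → chainOk d p q L = true → ∀ v : V, Typ d v → 0 < v.1 →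
      p * v.1 ≤ v.2.1 * q → v.2.1 < v.1 → ∃ P : Piece, P.ok d = true ∧ |pr d v P.u| < v.1 := by
  intro L
  induction L with
  | nil =>
    intro p q hq hc v hv hv1 hx hlt
    simp only [chainOk, Bool.and_eq_true, decide_eq_true_eq] at hc
    rw [hc.1, hc.2] at hx
    omega
  | cons P L ih =>
    intro p q hq hc v hv hv1 hx hlt
    simp only [chainOk, Bool.and_eq_true, decide_eq_true_eq] at hc
    obtain ⟨⟨⟨hp, hq0⟩, hP⟩, hL⟩ := hc
    rcases le_total (v.2.1 * P.q') (P.p' * v.1) with h | h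
    · refine ⟨P, hP, piece_pos hd hP hv hv1 ?_ h⟩
      rw [hp, hq0]; exact hx
    · have hq' : 0 < P.q' := by
        simp only [Piece.ok, Bool.and_eq_true, decide_eq_true_eq, Bool.or_eq_true] at hP
        exact hP.1.1.1.1.1.1.1.1.2
      exact ih P.p' P.q' hq' hL v hv hv1 h hlt

theorem chain_step' {d : ℤ} (hd : 0 < d) (L : List Piece) (hc : chainOk d 0 1 L = true)
    (v : V) (hv : Typ d v) (hv1 : v.1 ≠ 0) (hx : 0 ≤ v.2.1 * v.1)
    (hlt : v.2.1 * v.1 < v.1 * v.1) :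
    ∃ P : Piece, P.ok d = true ∧ |pr d v P.u| < |v.1| := by
  rcases lt_or_gt_of_ne hv1 with h | h
  · have h1 : 0 < (-v).1 := by simp only [Prod.fst_neg]; omega
    have h2 : 0 * (-v).1 ≤ (-v).2.1 * 1 := by
      simp only [Prod.fst_neg, Prod.snd_neg]
      nlinarith
    have h3 : (-v).2.1 < (-v).1 := by
      simp only [Prod.fst_neg, Prod.snd_neg]
      nlinarith
    obtain ⟨P, hP, hlt⟩ := chain_step hd L 0 1 one_pos hc (-v) hv.neg h1 h2 h3
    refine ⟨P, hP, ?_⟩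
    have e : pr d (-v) P.u = - pr d v P.u := by
      simp only [pr, Prod.fst_neg, Prod.snd_neg]; ring
    rw [e, abs_neg] at hlt
    rwa [abs_of_neg h]
  · have h2 : 0 * v.1 ≤ v.2.1 * 1 := by nlinarith
    have h3 : v.2.1 < v.1 := by nlinarith
    obtain ⟨P, hP, hlt⟩ := chain_step hd L 0 1 one_pos hc v hv h h2 h3
    refine ⟨P, hP, ?_⟩
    rwa [abs_of_pos h]

theorem closure_isom {d : ℤ} {g : V ≃ₗ[ℤ] V} (hg : g ∈ Subgroup.closure (gens d)) :
    Isom d g := fun v w => (mat_of_closure hg).isom v w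

theorem reduce {d : ℤ} (hd : 0 < d) (L : List Piece) (hc : chainOk d 0 1 L = true) :
    ∀ (n : ℕ) (f : V ≃ₗ[ℤ] V), Isom d f → Disc d f → (f (0, 0, 1)).1.natAbs ≤ n →
      ∃ g ∈ Subgroup.closure (gens d),
        g (f (0, 0, 1)) = (0, 0, 1) ∨ g (f (0, 0, 1)) = (0, 0, -1) := by
  intro n
  induction n with
  | zero =>
    intro f hf hD hn
    have h0 : (f (0, 0, 1)).1 = 0 := by
      have := Nat.le_zero.mp hn
      exact Int.natAbs_eq_zero.mp this
    have ht := typ_of_isom hd hf hD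
    refine ⟨1, Subgroup.one_mem _, ?_⟩
    rw [LinearEquiv.coe_one, id]
    generalize f (0, 0, 1) = v at *
    obtain ⟨r, l, s⟩ := v
    obtain ⟨h1, h2, -⟩ := ht
    dsimp only at h0 h1 h2
    subst h0
    have hl : l = 0 := by
      have : d * l ^ 2 = 0 := by rw [← h1]; ring
      rcases mul_eq_zero.mp this with h | h
      · exact absurd h hd.ne'
      · exact pow_eq_zero_iff (two_ne_zero) |>.mp h
    subst hl
    rw [isCoprime_zero_left] at h2
    rcases Int.isUnit_iff.mp h2 with h | h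
    · left; rw [h]
    · right; rw [h]
  | succ n ih =>
    intro f hf hD hn
    rcases eq_or_ne (f (0, 0, 1)).1 0 with h0 | h0
    · exact ih f hf hD (by rw [h0]; simp)
    -- shift
    obtain ⟨k, hk⟩ : ∃ k : ℤ, k = ⌊((f (0, 0, 1)).2.1 : ℚ) / ((f (0, 0, 1)).1 : ℚ)⌋ := ⟨_, rfl⟩
    have hz : pr d (0, 0, 1) (0, 0, 1) = 0 := by simp [pr]
    have hw : pr d (0, 0, 1) (0, k, 0) = 0 := by simp [pr]
    set f1 : V ≃ₗ[ℤ] V := tvE d (0, 0, 1) (0, k, 0) hz hw * f with hf1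
    have hg1 := tvE_mem d (0, 0, 1) (0, k, 0) hz hw
    have hf1i : Isom d f1 := (closure_isom hg1).mul hf
    have hf1D : Disc d f1 := (mat_of_closure hg1).disc.mul hD
    have ht := typ_of_isom hd hf1i hf1D
    have e1 : (f1 (0, 0, 1)).1 = (f (0, 0, 1)).1 := by
      rw [hf1, LinearEquiv.mul_apply, tvE_apply]
      simp [tv, pr, qd]
    have e2 : (f1 (0, 0, 1)).2.1 = (f (0, 0, 1)).2.1 - k * (f (0, 0, 1)).1 := by
      rw [hf1, LinearEquiv.mul_apply, tvE_apply]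
      simp [tv, pr, qd]
      ring
    have hr0 : ((f (0, 0, 1)).1 : ℚ) ≠ 0 := by exact_mod_cast h0
    have hfl1 := Int.floor_le (((f (0, 0, 1)).2.1 : ℚ) / ((f (0, 0, 1)).1 : ℚ))
    have hfl2 := Int.lt_floor_add_one (((f (0, 0, 1)).2.1 : ℚ) / ((f (0, 0, 1)).1 : ℚ))
    rw [← hk] at hfl1 hfl2
    have hsq : (0 : ℚ) < ((f (0, 0, 1)).1 : ℚ) ^ 2 := by positivity
    have e3 : 0 ≤ (f1 (0, 0, 1)).2.1 * (f1 (0, 0, 1)).1 := by
      rw [e1, e2]
      have : (0 : ℚ) ≤ (((f (0, 0, 1)).2.1 : ℚ) - k * ((f (0, 0, 1)).1 : ℚ)) *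
          ((f (0, 0, 1)).1 : ℚ) := by
        have e : (((f (0, 0, 1)).2.1 : ℚ) - k * ((f (0, 0, 1)).1 : ℚ)) * ((f (0, 0, 1)).1 : ℚ) =
          (((f (0, 0, 1)).2.1 : ℚ) / ((f (0, 0, 1)).1 : ℚ) - k) * ((f (0, 0, 1)).1 : ℚ) ^ 2 := by
          field_simp
        rw [e]
        exact mul_nonneg (by linarith) hsq.le
      exact_mod_cast this
    have e4 : (f1 (0, 0, 1)).2.1 * (f1 (0, 0, 1)).1 < (f1 (0, 0, 1)).1 * (f1 (0, 0, 1)).1 := by
      rw [e1, e2]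
      have : (((f (0, 0, 1)).2.1 : ℚ) - k * ((f (0, 0, 1)).1 : ℚ)) *
          ((f (0, 0, 1)).1 : ℚ) < ((f (0, 0, 1)).1 : ℚ) * ((f (0, 0, 1)).1 : ℚ) := by
        have e : (((f (0, 0, 1)).2.1 : ℚ) - k * ((f (0, 0, 1)).1 : ℚ)) * ((f (0, 0, 1)).1 : ℚ) =
          (((f (0, 0, 1)).2.1 : ℚ) / ((f (0, 0, 1)).1 : ℚ) - k) * ((f (0, 0, 1)).1 : ℚ) ^ 2 := by
          field_simp
        rw [e, ← sq]
        have : (((f (0, 0, 1)).2.1 : ℚ) / ((f (0, 0, 1)).1 : ℚ) - k) < 1 := by linarith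
        nlinarith
      exact_mod_cast this
    have h0' : (f1 (0, 0, 1)).1 ≠ 0 := by rw [e1]; exact h0
    obtain ⟨P, hP, hlt⟩ := chain_step' hd L hc (f1 (0, 0, 1)) ht h0' e3 e4
    have hP' := hP
    simp only [Piece.ok, Bool.and_eq_true, decide_eq_true_eq, Bool.or_eq_true] at hP'
    obtain ⟨h, hh, hhv⟩ := exists_of_word d P.word hP'.1.1.1.1.1.2
    have hu : h P.u = (0, 0, 1) ∨ h P.u = (0, 0, -1) := by
      rw [hhv]; exact hP'.1.1.1.1.2
    set f2 : V ≃ₗ[ℤ] V := h * f1 with hf2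
    have hf2i : Isom d f2 := (closure_isom hh).mul hf1i
    have hf2D : Disc d f2 := (mat_of_closure hh).disc.mul hf1D
    have e5 : |(f2 (0, 0, 1)).1| = |pr d (f1 (0, 0, 1)) P.u| := by
      have := closure_isom hh (f1 (0, 0, 1)) P.u
      rw [← this, hf2, LinearEquiv.mul_apply]
      rcases hu with hu | hu
      · rw [hu]; simp [pr]
      · rw [hu]; simp [pr]
    have e6 : (f2 (0, 0, 1)).1.natAbs ≤ n := by
      have h1 : |(f2 (0, 0, 1)).1| < |(f (0, 0, 1)).1| := by rw [e5, ← e1]; exact hlt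
      have h2 : (f2 (0, 0, 1)).1.natAbs < (f (0, 0, 1)).1.natAbs := by
        zify
        exact h1
      omega
    obtain ⟨g, hg, hgf⟩ := ih f2 hf2i hf2D e6
    refine ⟨g * h * tvE d (0, 0, 1) (0, k, 0) hz hw,
      Subgroup.mul_mem _ (Subgroup.mul_mem _ hg hh) hg1, ?_⟩
    exact hgf

end Pool.Agent.K3Aut
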