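import Pool.Agent.K3Aut.Gen

set_option linter.unusedSimpArgs false

namespace Pool.Agent.K3Aut

/-- isometry -/
def Isom (d : ℤ) (f : V ≃ₗ[ℤ] V) : Prop := ∀ v w, pr d (f v) (f w) = pr d v w

/-- cusp vectors in the orbit of `(0,0,1)` -/
def Typ (d : ℤ) (v : V) : Prop :=
  v.1 * v.2.2 = d * v.2.1 ^ 2 ∧ IsCoprime v.1 v.2.2 ∧ (d ∣ v.1 ∨ d ∣ v.2.2)

theorem Isom.mul {d : ℤ} {f g : V ≃ₗ[ℤ] V} (hf : Isom d f) (hg : Isom d g) : Isom d (f * g) :=
  fun v w => by rw [LinearEquiv.mul_apply, LinearEquiv.mul_apply, hf, hg]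

theorem Isom.inv {d : ℤ} {f : V ≃ₗ[ℤ] V} (hf : Isom d f) : Isom d f⁻¹ := by
  intro v w
  have h1 : f (f⁻¹ v) = v := f.apply_symm_apply v
  have h2 : f (f⁻¹ w) = w := f.apply_symm_apply w
  rw [← hf (f⁻¹ v) (f⁻¹ w), h1, h2]

theorem Disc.mul {d : ℤ} {f g : V ≃ₗ[ℤ] V} (hf : Disc d f) (hg : Disc d g) :
    Disc d (f * g) := by
  obtain ⟨a, b, c, h1⟩ := hf
  obtain ⟨a', b', c', h2⟩ := hg
  have h3 : ((2 * d * a', 1 + 2 * d * b', 2 * d * c') : V) =
      (0, 1, 0) + (2 * d) • ((a', b', c') : V) := by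
    simp only [Prod.smul_mk, smul_eq_mul, Prod.mk_add_mk, zero_add]
  refine ⟨a + (f (a', b', c')).1, b + (f (a', b', c')).2.1, c + (f (a', b', c')).2.2, ?_⟩
  rw [LinearEquiv.mul_apply, h2, h3, map_add, map_smul, h1]
  refine Prod.ext ?_ (Prod.ext ?_ ?_)
  · show 2 * d * a + (2 * d) * (f (a', b', c')).1 = _
    ring
  · show 1 + 2 * d * b + (2 * d) * (f (a', b', c')).2.1 = _
    ring
  · show 2 * d * c + (2 * d) * (f (a', b', c')).2.2 = _
    ring

theorem typ_of_isom {d : ℤ} (hd : 0 < d) {f : V ≃ₗ[ℤ] V} (hf : Isom d f) (hD : Disc d f) :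
    Typ d (f (0, 0, 1)) := by
  obtain ⟨a, b, c, h2⟩ := hD
  have e33 := hf (0, 0, 1) (0, 0, 1)
  have e13 := hf (1, 0, 0) (0, 0, 1)
  have e22 := hf (0, 1, 0) (0, 1, 0)
  have e23 := hf (0, 1, 0) (0, 0, 1)
  rw [h2] at e22 e23
  generalize f (0, 0, 1) = v at *
  generalize f (1, 0, 0) = u at *
  obtain ⟨r, l, s⟩ := v
  obtain ⟨r', l', s'⟩ := u
  simp only [pr] at e33 e13 e22 e23
  have h1 : r * s = d * l ^ 2 := by nlinarith [e33]
  have hcop : IsCoprime r s := by
    rw [Int.isCoprime_iff_gcd_eq_one]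
    by_contra hne
    obtain ⟨p, hp, hpd⟩ := Nat.exists_prime_and_dvd hne
    have hpr : (p : ℤ) ∣ r := (Int.natCast_dvd_natCast.mpr hpd).trans (Int.gcd_dvd_left _ _)
    have hps : (p : ℤ) ∣ s := (Int.natCast_dvd_natCast.mpr hpd).trans (Int.gcd_dvd_right _ _)
    have hp' : Prime (p : ℤ) := Nat.prime_iff_prime_int.mp hp
    have hdl : (p : ℤ) ∣ d * l ^ 2 := by rw [← h1]; exact hpr.mul_right s
    have hdl2 : (p : ℤ) ∣ d * l := by
      rcases hp'.dvd_or_dvd hdl with h | h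
      · exact h.mul_right l
      · exact (hp'.dvd_of_dvd_pow h).mul_left d
    have : (p : ℤ) ∣ 1 := by
      have e : (1 : ℤ) = -(2 * l') * (d * l) + r' * s + s' * r := by linarith
      rw [e]
      exact dvd_add (dvd_add (hdl2.mul_left _) (hps.mul_left _)) (hpr.mul_left _)
    exact hp'.not_isUnit (isUnit_of_dvd_one this)
  refine ⟨h1, hcop, ?_⟩
  have hd0 : d ≠ 0 := hd.ne'
  have hac : a * c = b * (1 + d * b) := by
    have : (4 * d ^ 2) * (a * c) = (4 * d ^ 2) * (b * (1 + d * b)) := by nlinarith [e22]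
    exact mul_left_cancel₀ (by positivity) this
  have hsum : (1 + 2 * d * b) * l = a * s + c * r := by
    have : (2 * d) * ((1 + 2 * d * b) * l) = (2 * d) * (a * s + c * r) := by nlinarith [e23]
    exact mul_left_cancel₀ (by positivity) this
  have hprod : (a * s - d * b * l) * (a * s - (1 + d * b) * l) = 0 := by
    have : (a * s - d * b * l) * (a * s - (1 + d * b) * l) =
        (a * s) * (a * s - (1 + 2 * d * b) * l) + (b * (1 + d * b)) * (d * l ^ 2) := by ring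
    rw [this, hsum, ← hac, ← h1]; ring
  rcases eq_or_ne l 0 with hl | hl
  · have : r * s = 0 := by rw [h1, hl]; ring
    rcases mul_eq_zero.mp this with hr | hs
    · left; dsimp only; rw [hr]; exact dvd_zero d
    · right; dsimp only; rw [hs]; exact dvd_zero d
  have h6 : IsCoprime d (1 + d * b) := ⟨-b, 1, by ring⟩
  rcases mul_eq_zero.mp hprod with h | h
  · right
    dsimp only
    have hcr : c * r = (1 + d * b) * l := by linarith
    have : l * (c * d * l) = l * ((1 + d * b) * s) := by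
      calc l * (c * d * l) = c * (d * l ^ 2) := by ring
        _ = c * (r * s) := by rw [h1]
        _ = (c * r) * s := by ring
        _ = l * ((1 + d * b) * s) := by rw [hcr]; ring
    have h4 := mul_left_cancel₀ hl this
    have h5 : d ∣ (1 + d * b) * s := ⟨c * l, by rw [← h4]; ring⟩
    exact h6.dvd_of_dvd_mul_left h5
  · left
    dsimp only
    have has : a * s = (1 + d * b) * l := by linarith
    have : l * (a * d * l) = l * ((1 + d * b) * r) := by
      calc l * (a * d * l) = a * (d * l ^ 2) := by ring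
        _ = a * (r * s) := by rw [h1]
        _ = (a * s) * r := by ring
        _ = l * ((1 + d * b) * r) := by rw [has]; ring
    have h4 := mul_left_cancel₀ hl this
    have h5 : d ∣ (1 + d * b) * r := ⟨a * l, by rw [← h4]; ring⟩
    exact h6.dvd_of_dvd_mul_left h5

/-- words -/
inductive Gn where
  | R (δ : V) : Gn
  | E (z w : V) : Gn

/-- action of a letter -/
def Gn.app (d : ℤ) : Gn → V → V
  | .R δ, v => rf d δ v
  | .E z w, v => tv d z w v

/-- validity of a letter -/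
def Gn.ok (d : ℤ) : Gn → Bool
  | .R δ => decide (pr d δ δ = -2)
  | .E z w => decide (pr d z z = 0) && decide (pr d z w = 0)

/-- apply a word (first letter first) -/
def wapp (d : ℤ) : List Gn → V → V
  | [], v => v
  | g :: L, v => wapp d L (g.app d v)

theorem exists_of_word (d : ℤ) (L : List Gn) (h : L.all (Gn.ok d) = true) :
    ∃ g ∈ Subgroup.closure (gens d), ∀ v, g v = wapp d L v := by
  induction L with
  | nil => exact ⟨1, Subgroup.one_mem _, fun v => rfl⟩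
  | cons x L ih =>
    simp only [List.all_cons, Bool.and_eq_true] at h
    obtain ⟨g, hg, hgv⟩ := ih h.2
    have hx : ∃ k ∈ Subgroup.closure (gens d), ∀ v, k v = x.app d v := by
      cases x with
      | R δ =>
        have h1 : pr d δ δ = -2 := by simpa [Gn.ok] using h.1
        exact ⟨rfE d δ h1, rfE_mem d δ h1, fun v => rfl⟩
      | E z w =>
        have h1 : pr d z z = 0 ∧ pr d z w = 0 := by simpa [Gn.ok] using h.1
        exact ⟨tvE d z w h1.1 h1.2, tvE_mem d z w h1.1 h1.2, fun v => rfl⟩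
    obtain ⟨k, hk, hkv⟩ := hx
    refine ⟨g * k, Subgroup.mul_mem _ hg hk, fun v => ?_⟩
    rw [LinearEquiv.mul_apply, hkv, hgv]
    rfl

/-- data of one interval `[p/q, p'/q']`: the good isotropic vector `u`, a word for it, and for
each endpoint a vector `z` with a Bezout certificate `c`, used if the endpoint is only touched -/
structure Piece where
  p : ℤ
  q : ℤ
  p' : ℤ
  q' : ℤ
  u : V
  word : List Gn
  z : V
  c : V
  z' : V
  c' : V

/-- endpoint `p/q` is a bad cusp, certified by `z`, `c` -/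
def badOk (d p q : ℤ) (z c : V) : Bool :=
  decide (z.1 ≠ 0) && decide (z.1 * z.2.2 = d * z.2.1 ^ 2) && decide (z.2.1 * q = z.1 * p) &&
  decide (z.1 % d ≠ 0) && decide (z.2.2 % d ≠ 0) &&
  decide (c.1 * z.1 + c.2.1 * z.2.1 + c.2.2 * z.2.2 = 1)

/-- value of the quadratic of `u` at `p/q`, times `q^2` -/
def qv (d p q : ℤ) (u : V) : ℤ := u.2.2 * q ^ 2 - 2 * d * u.2.1 * p * q + d * u.1 * p ^ 2

/-- check of one piece -/
def Piece.ok (d : ℤ) (P : Piece) : Bool :=
  decide (0 < P.q) && decide (0 < P.q') && decide (0 < P.u.1) &&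
  decide (P.u.1 * P.u.2.2 = d * P.u.2.1 ^ 2) &&
  (P.word.all (Gn.ok d)) &&
  (decide (wapp d P.word P.u = (0, 0, 1)) || decide (wapp d P.word P.u = (0, 0, -1))) &&
  decide (qv d P.p P.q P.u ≤ P.q ^ 2) && decide (qv d P.p' P.q' P.u ≤ P.q' ^ 2) &&
  (decide (qv d P.p P.q P.u < P.q ^ 2) || badOk d P.p P.q P.z P.c) &&
  (decide (qv d P.p' P.q' P.u < P.q' ^ 2) || badOk d P.p' P.q' P.z' P.c')

/-- check of the chain of pieces, from `p/q` up to `1/1` -/
def chainOk (d : ℤ) : ℤ → ℤ → List Piece → Bool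
  | p, q, [] => decide (p = 1) && decide (q = 1)
  | p, q, P :: L => decide (P.p = p) && decide (P.q = q) && P.ok d && chainOk d P.p' P.q' L

theorem conv_lt {A B C a b x : ℚ} (hA : 0 < A) (hax : a ≤ x) (hxb : x ≤ b)
    (ha : A * a ^ 2 - 2 * B * a + C ≤ 1) (hb : A * b ^ 2 - 2 * B * b + C ≤ 1)
    (ha' : x = a → A * a ^ 2 - 2 * B * a + C < 1) (hb' : x = b → A * b ^ 2 - 2 * B * b + C < 1) :
    A * x ^ 2 - 2 * B * x + C < 1 := by
  rcases eq_or_lt_of_le hax with h | h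
  · rw [← h]; exact ha' h.symm
  rcases eq_or_lt_of_le hxb with h' | h'
  · rw [h']; exact hb' h'
  have key : (b - a) * (A * x ^ 2 - 2 * B * x + C) =
      (b - x) * (A * a ^ 2 - 2 * B * a + C) + (x - a) * (A * b ^ 2 - 2 * B * b + C) -
        A * (x - a) * (b - x) * (b - a) := by ring
  have h1 : 0 < b - a := by linarith
  have h2 : 0 < A * (x - a) * (b - x) * (b - a) :=
    mul_pos (mul_pos (mul_pos hA (by linarith)) (by linarith)) h1
  have h3 : (b - x) * (A * a ^ 2 - 2 * B * a + C) ≤ (b - x) * 1 :=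
    mul_le_mul_of_nonneg_left ha (by linarith)
  have h4 : (x - a) * (A * b ^ 2 - 2 * B * b + C) ≤ (x - a) * 1 :=
    mul_le_mul_of_nonneg_left hb (by linarith)
  have h5 : (b - a) * (A * x ^ 2 - 2 * B * x + C) < (b - a) * 1 := by
    rw [key]; linarith
  exact lt_of_mul_lt_mul_left h5 h1.le

theorem not_bad {d p q : ℤ} {z c v : V} (h : badOk d p q z c = true) (hv : Typ d v)
    (hv1 : v.1 ≠ 0) (hx : v.2.1 * q = v.1 * p) (hq : q ≠ 0) : False := by
  obtain ⟨z1, z2, z3⟩ := z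
  obtain ⟨c1, c2, c3⟩ := c
  obtain ⟨v1, v2, v3⟩ := v
  simp only [badOk, Bool.and_eq_true, decide_eq_true_eq] at h
  obtain ⟨⟨⟨⟨⟨hz1, hziso⟩, hzx⟩, hzd1⟩, hzd3⟩, hbez⟩ := h
  obtain ⟨hviso, hcop, hdv⟩ := hv
  dsimp only at hviso hcop hdv hv1 hx
  have e12 : v1 * z2 = v2 * z1 := by
    have : q * (v1 * z2) = q * (v2 * z1) := by
      calc q * (v1 * z2) = v1 * (z2 * q) := by ring
        _ = v1 * (z1 * p) := by rw [hzx]
        _ = z1 * (v1 * p) := by ring
        _ = z1 * (v2 * q) := by rw [hx]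
        _ = q * (v2 * z1) := by ring
    exact mul_left_cancel₀ hq this
  have e13 : v3 * z1 = v1 * z3 := by
    have : (v1 * z1) * (v3 * z1) = (v1 * z1) * (v1 * z3) := by
      calc (v1 * z1) * (v3 * z1) = (v1 * v3) * z1 ^ 2 := by ring
        _ = d * (v2 * z1) ^ 2 := by rw [hviso]; ring
        _ = d * (v1 * z2) ^ 2 := by rw [e12]
        _ = v1 ^ 2 * (d * z2 ^ 2) := by ring
        _ = v1 ^ 2 * (z1 * z3) := by rw [hziso]
        _ = (v1 * z1) * (v1 * z3) := by ring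
    exact mul_left_cancel₀ (mul_ne_zero hv1 hz1) this
  have e23 : v3 * z2 = v2 * z3 := by
    have : z1 * (v3 * z2) = z1 * (v2 * z3) := by
      calc z1 * (v3 * z2) = (v3 * z1) * z2 := by ring
        _ = (v1 * z3) * z2 := by rw [e13]
        _ = (v1 * z2) * z3 := by ring
        _ = (v2 * z1) * z3 := by rw [e12]
        _ = z1 * (v2 * z3) := by ring
    exact mul_left_cancel₀ hz1 this
  obtain ⟨t, ht⟩ : ∃ t, t = c1 * v1 + c2 * v2 + c3 * v3 := ⟨_, rfl⟩
  have t1 : t * z1 = v1 := by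
    rw [ht]
    calc (c1 * v1 + c2 * v2 + c3 * v3) * z1 = c1 * v1 * z1 + c2 * (v2 * z1) + c3 * (v3 * z1) := by
          ring
      _ = v1 * (c1 * z1 + c2 * z2 + c3 * z3) := by rw [← e12, e13]; ring
      _ = v1 := by rw [hbez, mul_one]
  have t3 : t * z3 = v3 := by
    rw [ht]
    calc (c1 * v1 + c2 * v2 + c3 * v3) * z3 = c1 * (v1 * z3) + c2 * (v2 * z3) + c3 * v3 * z3 := by
          ring
      _ = v3 * (c1 * z1 + c2 * z2 + c3 * z3) := by rw [← e23, ← e13]; ring
      _ = v3 := by rw [hbez, mul_one]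
  have hu : IsUnit t := by
    have h1 : t ∣ v1 := ⟨z1, t1.symm⟩
    have h3 : t ∣ v3 := ⟨z3, t3.symm⟩
    exact hcop.isUnit_of_dvd' h1 h3
  rcases hdv with h | h
  · rw [← t1] at h
    have : d ∣ z1 := (hu.dvd_mul_left).mp h
    exact hzd1 (Int.emod_eq_zero_of_dvd this)
  · rw [← t3] at h
    have : d ∣ z3 := (hu.dvd_mul_left).mp h
    exact hzd3 (Int.emod_eq_zero_of_dvd this)

theorem piece_pos {d : ℤ} (hd : 0 < d) {P : Piece} (hP : P.ok d = true) {v : V} (hv : Typ d v)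
    (hv1 : 0 < v.1) (hx : P.p * v.1 ≤ v.2.1 * P.q) (hx' : v.2.1 * P.q' ≤ P.p' * v.1) :
    |pr d v P.u| < v.1 := by
  simp only [Piece.ok, Bool.and_eq_true, decide_eq_true_eq, Bool.or_eq_true] at hP
  obtain ⟨⟨⟨⟨⟨⟨⟨⟨⟨hq, hq'⟩, hu1⟩, hu⟩, hw⟩, hw'⟩, hQ⟩, hQ'⟩, hS⟩, hS'⟩ := hP
  have hv1q : (0 : ℚ) < v.1 := by exact_mod_cast hv1
  have hqq : (0 : ℚ) < P.q := by exact_mod_cast hq
  have hqq' : (0 : ℚ) < P.q' := by exact_mod_cast hq'
  have e1 : ∀ p q : ℤ, (0 : ℚ) < q → ((d * P.u.1 : ℤ) : ℚ) * ((p : ℚ) / q) ^ 2 -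
      2 * ((d * P.u.2.1 : ℤ) : ℚ) * ((p : ℚ) / q) + ((P.u.2.2 : ℤ) : ℚ) =
      (qv d p q P.u : ℚ) / (q : ℚ) ^ 2 := by
    intro p q hq
    simp only [qv]
    push_cast
    field_simp
    ring
  have e2 : ((d * P.u.1 : ℤ) : ℚ) * ((v.2.1 : ℚ) / v.1) ^ 2 -
      2 * ((d * P.u.2.1 : ℤ) : ℚ) * ((v.2.1 : ℚ) / v.1) + ((P.u.2.2 : ℤ) : ℚ) < 1 := by
    apply conv_lt (a := (P.p : ℚ) / P.q) (b := (P.p' : ℚ) / P.q')
    · have : 0 < d * P.u.1 := mul_pos hd hu1
      exact_mod_cast this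
    · rw [div_le_div_iff₀ hqq hv1q]; exact_mod_cast hx
    · rw [div_le_div_iff₀ hv1q hqq']; exact_mod_cast hx'
    · rw [e1 _ _ hqq, div_le_one (by positivity)]; exact_mod_cast hQ
    · rw [e1 _ _ hqq', div_le_one (by positivity)]; exact_mod_cast hQ'
    · intro h
      rcases hS with h1 | h1
      · rw [e1 _ _ hqq, div_lt_one (by positivity)]; exact_mod_cast h1
      · exfalso
        rw [div_eq_div_iff hv1q.ne' hqq.ne'] at h
        have h' : v.2.1 * P.q = v.1 * P.p := by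
          have : v.2.1 * P.q = P.p * v.1 := by exact_mod_cast h
          rw [this]; ring
        exact not_bad h1 hv hv1.ne' h' hq.ne'
    · intro h
      rcases hS' with h1 | h1
      · rw [e1 _ _ hqq', div_lt_one (by positivity)]; exact_mod_cast h1
      · exfalso
        rw [div_eq_div_iff hv1q.ne' hqq'.ne'] at h
        have h' : v.2.1 * P.q' = v.1 * P.p' := by
          have : v.2.1 * P.q' = P.p' * v.1 := by exact_mod_cast h
          rw [this]; ring
        exact not_bad h1 hv hv1.ne' h' hq'.ne'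
  rw [e1 _ _ hv1q, div_lt_one (by positivity)] at e2
  have e3 : qv d v.2.1 v.1 P.u < v.1 ^ 2 := by exact_mod_cast e2
  have e4 : qv d v.2.1 v.1 P.u = v.1 * (-(pr d v P.u)) := by
    have := hv.1
    simp only [qv, pr]
    linear_combination P.u.1 * (-this)
  have e5 : 0 ≤ qv d v.2.1 v.1 P.u := by
    have : P.u.1 * qv d v.2.1 v.1 P.u = d * (P.u.1 * v.2.1 - P.u.2.1 * v.1) ^ 2 := by
      simp only [qv]
      linear_combination v.1 ^ 2 * hu
    have h2 : 0 ≤ P.u.1 * qv d v.2.1 v.1 P.u := by rw [this]; positivity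
    exact nonneg_of_mul_nonneg_right h2 hu1
  rw [e4] at e3 e5
  have h6 : 0 ≤ -(pr d v P.u) := nonneg_of_mul_nonneg_right e5 hv1
  have h7 : -(pr d v P.u) < v.1 := by
    have : v.1 * (-(pr d v P.u)) < v.1 * v.1 := by rw [← sq]; exact e3
    exact lt_of_mul_lt_mul_left this hv1.le
  rw [abs_lt]
  constructor <;> linarith

end Pool.Agent.K3Aut
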